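import Pool.Agent.TH84.UC.Prob3

set_option autoImplicit false

/-!
# Asymptotics: sparse and dense ranges
-/

namespace Pool.Agent.TH84.UC

open Finset Filter
open scoped Classical
open Pool.Agent.H161R2.UC

lemma exp_le_one_sub {p : ℝ} (h0 : 0 ≤ p) (h1 : p ≤ 1 / 2) : Real.exp (-(2 * p)) ≤ 1 - p := by
  have h2 : 1 + 2 * p ≤ Real.exp (2 * p) := by
    have := Real.add_one_le_exp (2 * p); linarith
  rw [Real.exp_neg]
  have h3 : (Real.exp (2 * p))⁻¹ ≤ (1 + 2 * p)⁻¹ := inv_anti₀ (by linarith) h2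
  refine h3.trans ?_
  rw [inv_eq_one_div, div_le_iff₀ (by linarith)]
  nlinarith

lemma exp_le_pow {p : ℝ} (h0 : 0 ≤ p) (h1 : p ≤ 1 / 2) (k : ℕ) :
    Real.exp (-(2 * p * k)) ≤ (1 - p) ^ k := by
  calc Real.exp (-(2 * p * k)) = Real.exp (-(2 * p)) ^ k := by
        rw [← Real.exp_nat_mul]; congr 1; ring
    _ ≤ _ := pow_le_pow_left₀ (Real.exp_pos _).le (exp_le_one_sub h0 h1) _

lemma one_sub_pow_le {t : ℝ} (h1 : t ≤ 1) (k : ℕ) :
    (1 - t) ^ k ≤ Real.exp (-(t * k)) := by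
  calc (1 - t) ^ k ≤ (Real.exp (-t)) ^ k :=
        pow_le_pow_left₀ (by linarith) (Real.one_sub_le_exp_neg _) _
    _ = _ := by rw [← Real.exp_nat_mul]; congr 1; ring

lemma ev_rpow {c ε : ℝ} (hc : 0 < c) (hε : 0 < ε) :
    ∀ᶠ m : ℕ in atTop, (m : ℝ) ^ (-c) ≤ ε := by
  have h := (tendsto_rpow_neg_atTop hc).comp tendsto_natCast_atTop_atTop
  exact (h.eventually (gt_mem_nhds hε)).mono fun m hm => le_of_lt hm

lemma ev_log (K : ℝ) : ∀ᶠ m : ℕ in atTop, K ≤ Real.log m :=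
  (Real.tendsto_log_atTop.comp tendsto_natCast_atTop_atTop).eventually_ge_atTop K

lemma ev_rpow_log {c ε : ℝ} (hc : 0 < c) (hε : 0 < ε) :
    ∀ᶠ m : ℕ in atTop, (m : ℝ) ^ (-c) * Real.log m ≤ ε := by
  have h := (isLittleO_log_rpow_atTop hc).tendsto_div_nhds_zero
  have h2 := (h.comp tendsto_natCast_atTop_atTop).eventually (gt_mem_nhds hε)
  filter_upwards [h2, eventually_gt_atTop 0] with m hm hm0
  have hm' : (0:ℝ) < m := by exact_mod_cast hm0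
  have e : (m : ℝ) ^ (-c) * Real.log m = Real.log m / (m : ℝ) ^ c := by
    rw [Real.rpow_neg hm'.le]; field_simp
  rw [e]
  exact le_of_lt hm

lemma ev_pow (c : ℝ) (hc : 0 < c) (K : ℝ) : ∀ᶠ m : ℕ in atTop, K ≤ (m : ℝ) ^ c :=
  ((tendsto_rpow_atTop hc).comp tendsto_natCast_atTop_atTop).eventually_ge_atTop K

/-- very sparse range -/
lemma reg_vs {ε : ℝ} (hε : 0 < ε) : ∀ᶠ m : ℕ in atTop, ∀ (n : ℕ) (p : ℝ), 0 ≤ p → p ≤ 1 →
    n * p ≤ (m : ℝ) ^ (-(3 / 5) : ℝ) →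
    Pr p (fun M : Mat m n => NZ M ∧ ¬ Frankl M) ≤ ε := by
  filter_upwards [ev_rpow (show (0:ℝ) < 1 / 5 by norm_num) hε, eventually_gt_atTop 0]
    with m hm hm0 n p h0 h1 hnp
  have hm' : (0:ℝ) < m := by exact_mod_cast hm0
  refine (Pr_very_sparse h0 h1).trans ?_
  have h2 : (n * p) ^ 2 ≤ ((m : ℝ) ^ (-(3 / 5) : ℝ)) ^ 2 :=
    pow_le_pow_left₀ (by positivity) hnp 2
  have h3 : (m : ℝ) * ((m : ℝ) ^ (-(3 / 5) : ℝ)) ^ 2 = (m : ℝ) ^ (-(1 / 5) : ℝ) := by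
    rw [← Real.rpow_natCast, ← Real.rpow_mul hm'.le]
    nth_rewrite 1 [← Real.rpow_one (m : ℝ)]
    rw [← Real.rpow_add hm']
    norm_num
  calc (m : ℝ) * n ^ 2 * p ^ 2 = m * (n * p) ^ 2 := by ring
    _ ≤ m * ((m : ℝ) ^ (-(3 / 5) : ℝ)) ^ 2 := mul_le_mul_of_nonneg_left h2 hm'.le
    _ = (m : ℝ) ^ (-(1 / 5) : ℝ) := h3
    _ ≤ ε := hm

lemma single_le_one {p : ℝ} (h0 : 0 ≤ p) (h1 : p ≤ 1) (n : ℕ) :
    (n : ℝ) * ((1 - p) ^ (n - 1) * p) ≤ 1 := by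
  rw [← Ev_single (p := p) (n := n), ← Ev_one p (k := n)]
  refine Ev_mono h0 h1 fun r => ?_
  by_cases h : ∃ x, ∀ y, r y = true ↔ y = x
  · rw [ind_pos h]
  · rw [ind_neg h]; norm_num

/-- sparse range -/
lemma reg_s {ε : ℝ} (hε : 0 < ε) : ∀ᶠ m : ℕ in atTop, ∀ (n : ℕ) (p : ℝ), 0 ≤ p → p ≤ 1 / 2 →
    (m : ℝ) ^ (-(3 / 5) : ℝ) ≤ n * p → n * p ≤ Real.log m / 20 →
    Pr p (fun M : Mat m n => ¬ Frankl M) ≤ ε := by
  have hlim : ∀ᶠ m : ℕ in atTop, Real.exp (-((m : ℝ) ^ (3 / 10 : ℝ))) ≤ ε := by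
    filter_upwards [ev_pow (3 / 10) (by norm_num) (-Real.log ε)] with m hm
    rw [← Real.exp_log hε]
    exact Real.exp_le_exp.mpr (by linarith)
  filter_upwards [hlim, eventually_gt_atTop 1] with m hm hm0 n p h0 h1 hlo hhi
  have hm' : (0:ℝ) < m := by positivity
  refine (Pr_no_single h0 (by linarith)).trans ?_
  refine (one_sub_pow_le (single_le_one h0 (by linarith) n) m).trans ?_
  refine le_trans (Real.exp_le_exp.mpr ?_) hm
  rw [neg_le_neg_iff]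
  have h2 : Real.exp (-(Real.log m / 10)) ≤ (1 - p) ^ (n - 1) := by
    calc Real.exp (-(Real.log m / 10)) ≤ Real.exp (-(2 * p * n)) :=
          Real.exp_le_exp.mpr (by linarith)
      _ ≤ (1 - p) ^ n := exp_le_pow h0 h1 n
      _ ≤ (1 - p) ^ (n - 1) := pow_le_pow_of_le_one (by linarith) (by linarith) (Nat.sub_le _ _)
  have h3 : Real.exp (-(Real.log m / 10)) = (m : ℝ) ^ (-(1 / 10) : ℝ) := by
    rw [Real.rpow_def_of_pos hm']; congr 1; ring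
  rw [h3] at h2
  have h4 : (m : ℝ) ^ (3 / 10 : ℝ) = (m : ℝ) ^ (-(3 / 5) : ℝ) * (m : ℝ) ^ (-(1 / 10) : ℝ) * m := by
    nth_rewrite 4 [← Real.rpow_one (m : ℝ)]
    rw [← Real.rpow_add hm', ← Real.rpow_add hm']
    norm_num
  rw [h4]
  have h5 : (n : ℝ) * ((1 - p) ^ (n - 1) * p) * m = (n * p) * (1 - p) ^ (n - 1) * m := by ring
  rw [h5]
  refine mul_le_mul_of_nonneg_right ?_ hm'.le
  exact mul_le_mul hlo h2 (by positivity) (by positivity)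

lemma ev_poly_exp (k : ℕ) {r ε : ℝ} (h0 : 0 ≤ r) (h1 : r < 1) (hε : 0 < ε) :
    ∀ᶠ n : ℕ in atTop, ((n : ℝ) ^ 2) ^ k * r ^ n ≤ ε := by
  have h := tendsto_pow_const_mul_const_pow_of_lt_one (2 * k) h0 h1
  filter_upwards [h.eventually (gt_mem_nhds hε)] with n hn
  rw [← pow_mul]
  exact le_of_lt hn

/-- dense range -/
lemma reg_d {ε : ℝ} (hε : 0 < ε) : ∀ᶠ n : ℕ in atTop, ∀ (m : ℕ) (p : ℝ), (m : ℝ) ≤ (n : ℝ) ^ 2 →
    97 / 100 ≤ p → p ≤ 1 → Pr p (fun M : Mat m n => NZ M ∧ ¬ Frankl M) ≤ ε := by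
  filter_upwards [ev_poly_exp 1 (show (0:ℝ) ≤ 1 / 2 by norm_num) (by norm_num) hε]
    with n hn m p hmn h0 h1
  rcases eq_or_lt_of_le h1 with rfl | h1
  · rw [Pr_one]; exact hε.le
  refine (Pr_dense h0 h1).trans (le_trans ?_ hn)
  rw [pow_one]
  exact mul_le_mul_of_nonneg_right hmn (by positivity)

lemma reg_d1 {ε : ℝ} (hε : 0 < ε) : ∀ᶠ n : ℕ in atTop, ∀ (m : ℕ) (p : ℝ), (m : ℝ) ≤ (n : ℝ) ^ 2 →
    5 * 7 * (Nat.factorial 7 * 2 ^ 7) + 2 * 7 ≤ m →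
    1 / 2 ≤ p → p ≤ 97 / 100 → Pr p (fun M : Mat m n => ¬ Frankl M) ≤ ε := by
  have hr : (0:ℝ) ≤ 1 - (3 / 100) ^ 7 * (1 / 2) := by norm_num
  filter_upwards [ev_poly_exp 7 (show (0:ℝ) ≤ 1 / 3 by norm_num) (by norm_num)
    (show 0 < ε / 2 by linarith), ev_poly_exp 14 hr (by norm_num) (show 0 < ε / 2 by linarith),
    eventually_gt_atTop 0] with n hn1 hn2 hn0 m p hmn hm0 h0 h1
  have hq : (1 - p) ^ 7 ≤ 1 / 100 := by
    calc (1 - p) ^ 7 ≤ (1 / 2) ^ 7 := pow_le_pow_left₀ (by linarith) (by linarith) _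
      _ ≤ _ := by norm_num
  refine (Pr_reg1 (by linarith) (by linarith) hn0 (by norm_num) hm0 hq).trans ?_
  have b1 : (m : ℝ) ^ 7 * (1 / 3) ^ n ≤ ((n:ℝ) ^ 2) ^ 7 * (1 / 3) ^ n :=
    mul_le_mul_of_nonneg_right (pow_le_pow_left₀ (by positivity) hmn _) (by positivity)
  have h2 : (3 / 100 : ℝ) ^ 7 ≤ (1 - p) ^ 7 := pow_le_pow_left₀ (by norm_num) (by linarith) _
  have h3 : (3 / 100 : ℝ) ^ 7 * (1 / 2) ≤ (1 - p) ^ 7 * p :=
    mul_le_mul h2 h0 (by norm_num) (pow_nonneg (by linarith) _)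
  have h4 : (1 - p) ^ 7 * p ≤ 1 := by
    have : (1 - p) ^ 7 ≤ 1 := pow_le_one₀ (by linarith) (by linarith)
    nlinarith
  have b2 : (m : ℝ) ^ (2 * 7) * (1 - (1 - p) ^ 7 * p) ^ n ≤
      ((n:ℝ) ^ 2) ^ 14 * (1 - (3 / 100) ^ 7 * (1 / 2)) ^ n := by
    refine mul_le_mul (pow_le_pow_left₀ (by positivity) hmn _)
      (pow_le_pow_left₀ (by linarith) (by linarith) _) (pow_nonneg (by linarith) _) (by positivity)
  linarith

/-- bounded number of rows -/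
lemma reg_bdd (m1 : ℕ) {ε : ℝ} (hε : 0 < ε) : ∀ᶠ n : ℕ in atTop, ∀ (m : ℕ) (p : ℝ), 0 < m →
    m < m1 → 0 ≤ p → p ≤ 1 → Pr p (fun M : Mat m n => NZ M ∧ ¬ Frankl M) ≤ ε := by
  -- the threshold for `n p`
  obtain ⟨L, hL0, hL⟩ : ∃ L : ℝ, 0 < L ∧ m1 * Real.exp (-(L * (1 / 2) ^ m1)) ≤ ε := by
    have h1 : Tendsto (fun L : ℝ => m1 * Real.exp (-(L * (1 / 2) ^ m1))) atTop (nhds (m1 * 0)) := by
      refine Tendsto.const_mul _ (Real.tendsto_exp_neg_atTop_nhds_zero.comp ?_)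
      exact tendsto_id.atTop_mul_const (by positivity)
    rw [mul_zero] at h1
    obtain ⟨L, hL⟩ := ((h1.eventually (gt_mem_nhds hε)).and (eventually_gt_atTop 0)).exists
    exact ⟨L, hL.2, le_of_lt hL.1⟩
  have hlim1 : ∀ᶠ n : ℕ in atTop, (1 - (1 / 2 : ℝ) ^ m1) ^ n ≤ ε := by
    have h1 : (0:ℝ) < (1 / 2) ^ m1 := by positivity
    have h2 : (1 / 2 : ℝ) ^ m1 ≤ 1 := pow_le_one₀ (by norm_num) (by norm_num)
    have h := tendsto_pow_atTop_nhds_zero_of_lt_one (show (0:ℝ) ≤ 1 - (1 / 2) ^ m1 by linarith)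
      (by linarith)
    exact (h.eventually (gt_mem_nhds hε)).mono fun n hn => le_of_lt hn
  have hlim2 : ∀ᶠ n : ℕ in atTop, (m1 : ℝ) ^ 2 * L ^ 2 / n ≤ ε := by
    have h : Tendsto (fun n : ℕ => (m1 : ℝ) ^ 2 * L ^ 2 / n) atTop (nhds 0) :=
      tendsto_const_div_atTop_nhds_zero_nat _
    exact (h.eventually (gt_mem_nhds hε)).mono fun n hn => le_of_lt hn
  filter_upwards [hlim1, hlim2, eventually_gt_atTop 0] with n hn1 hn2 hn0 m p hm hmm h0 h1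
  have hn' : (0:ℝ) < n := by exact_mod_cast hn0
  have hm' : (m : ℝ) ≤ m1 := by exact_mod_cast hmm.le
  by_cases hp : p ≤ 1 / 2
  · by_cases hnp : n * p ≤ L
    · refine (Pr_disjoint h0 h1).trans (le_trans ?_ hn2)
      rw [le_div_iff₀ hn']
      calc (n : ℝ) * m ^ 2 * p ^ 2 * n = m ^ 2 * (n * p) ^ 2 := by ring
        _ ≤ (m1 : ℝ) ^ 2 * L ^ 2 := by
          refine mul_le_mul (pow_le_pow_left₀ (by positivity) hm' _)
            (pow_le_pow_left₀ (by positivity) hnp _) (by positivity) (by positivity)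
    · push Not at hnp
      have h2 : Pr p (fun M : Mat m n => NZ M ∧ ¬ Frankl M) ≤ Pr p (fun M : Mat m n => ¬ Frankl M) :=
        Pr_mono h0 h1 fun M h => h.2
      refine h2.trans ((Pr_private h0 h1 hm).trans (le_trans ?_ hL))
      have hq1 : (1 - p) ^ (m - 1) ≤ 1 := pow_le_one₀ (by linarith) (by linarith)
      have hq2 : (1 / 2 : ℝ) ^ m1 ≤ (1 - p) ^ (m - 1) := by
        calc (1 / 2 : ℝ) ^ m1 ≤ (1 / 2) ^ (m - 1) :=
              pow_le_pow_of_le_one (by norm_num) (by norm_num) (by omega)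
          _ ≤ _ := pow_le_pow_left₀ (by norm_num) (by linarith) _
      have hq0 : 0 ≤ (1 - p) ^ (m - 1) := pow_nonneg (by linarith) _
      have h3 : (1 - (1 - p) ^ (m - 1) * p) ^ n ≤ Real.exp (-(L * (1 / 2) ^ m1)) := by
        refine (one_sub_pow_le (by nlinarith) n).trans (Real.exp_le_exp.mpr ?_)
        rw [neg_le_neg_iff]
        calc L * (1 / 2) ^ m1 ≤ (n * p) * (1 - p) ^ (m - 1) :=
              mul_le_mul hnp.le hq2 (by positivity) (by positivity)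
          _ = _ := by ring
      exact mul_le_mul hm' h3 (pow_nonneg (by nlinarith) _) (by positivity)
  · push Not at hp
    have h2 : Pr p (fun M : Mat m n => NZ M ∧ ¬ Frankl M) ≤
        Pr p (fun M : Mat m n => ¬ ∃ x, ∀ i, M i x = true) :=
      Pr_mono h0 h1 fun M h h' => h.2 (frankl_of_common hm M h')
    refine h2.trans ?_
    rw [Pr_common]
    refine le_trans (pow_le_pow_left₀ ?_ ?_ _) hn1
    · have : p ^ m ≤ 1 := pow_le_one₀ h0 h1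
      linarith
    · have h3 : (1 / 2 : ℝ) ^ m1 ≤ p ^ m := by
        calc (1 / 2 : ℝ) ^ m1 ≤ (1 / 2) ^ m :=
              pow_le_pow_of_le_one (by norm_num) (by norm_num) hmm.le
          _ ≤ _ := pow_le_pow_left₀ (by norm_num) hp.le _
      linarith

end Pool.Agent.TH84.UC
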