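import Pool.Agent.H161R2.UCReg1
import Pool.Agent.H161R2.UCBin

set_option autoImplicit false

/-!
# Deterministic criteria for random union-closed families of all densities
-/

namespace Pool.Agent.TH84.UC

open Finset
open scoped Classical
open Pool.Agent.H161R2.UC

/-- the matrix is not zero -/
def NZ {m n : ℕ} (M : Mat m n) : Prop := ∃ i x, M i x = true

/-- some row is a singleton -/
lemma frankl_of_single {m n : ℕ} (M : Mat m n) (h : ∃ i x, ∀ y, M i y = true ↔ y = x) :
    Frankl M := by
  obtain ⟨i, x, hx⟩ := h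
  refine ⟨x, ?_⟩
  have hinj : ((fam M).filter (fun A => ¬ x ∈ A)).card ≤ ((fam M).filter (fun A => x ∈ A)).card := by
    refine Finset.card_le_card_of_injOn (fun A => insert x A) ?_ ?_
    · intro A hA
      rw [Finset.mem_coe, Finset.mem_filter, mem_fam] at hA
      obtain ⟨⟨I, rfl⟩, hA⟩ := hA
      rw [Finset.mem_coe, Finset.mem_filter, mem_fam]
      refine ⟨⟨insert i I, ?_⟩, Finset.mem_insert_self _ _⟩
      ext y
      rw [mem_unionOf, Finset.mem_insert, mem_unionOf]
      constructor
      · rintro ⟨k, hk, hy⟩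
        rcases Finset.mem_insert.mp hk with rfl | hk
        · exact Or.inl ((hx y).mp hy)
        · exact Or.inr ⟨k, hk, hy⟩
      · rintro (rfl | ⟨k, hk, hy⟩)
        · exact ⟨i, Finset.mem_insert_self _ _, (hx y).mpr rfl⟩
        · exact ⟨k, Finset.mem_insert_of_mem hk, hy⟩
    · intro A hA B hB hAB
      rw [Finset.mem_coe, Finset.mem_filter] at hA hB
      have h1 := congrArg (fun S => Finset.erase S x) hAB
      simpa [Finset.erase_insert hA.2, Finset.erase_insert hB.2] using h1
  have h2 := Finset.card_filter_add_card_filter_not (s := fam M) (fun A => x ∈ A)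
  omega

/-- all nonempty members are large -/
lemma frankl_of_rows_large {m n : ℕ} (M : Mat m n) (hNZ : NZ M)
    (h : ∀ i, ¬ 5 * (unionOf M {i}).card < 3 * n) : Frankl M := by
  by_contra hcon
  unfold Frankl at hcon
  push Not at hcon
  -- members other than the empty set
  set F' := (fam M).erase ∅ with hF'
  have hcard : F'.card + 1 = (fam M).card := Finset.card_erase_add_one (empty_mem_fam M)
  obtain ⟨i0, x0, h0⟩ := hNZ
  have hn : 0 < n := x0.pos
  have hne : (unionOf M {i0}) ∈ F' := by
    rw [hF', Finset.mem_erase, mem_fam]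
    refine ⟨?_, _, rfl⟩
    intro he
    have : x0 ∈ unionOf M {i0} := (mem_unionOf _ _ _).mpr ⟨i0, Finset.mem_singleton_self _, h0⟩
    rw [he] at this
    simp at this
  have hF1 : 1 ≤ F'.card := Finset.card_pos.mpr ⟨_, hne⟩
  have hlarge : ∀ A ∈ F', 3 * n ≤ 5 * A.card := by
    intro A hA
    rw [hF', Finset.mem_erase, mem_fam] at hA
    obtain ⟨hA0, I, rfl⟩ := hA
    obtain ⟨i, hi⟩ : ∃ i, i ∈ I := by
      by_contra hcon2
      push Not at hcon2
      apply hA0
      ext x
      rw [mem_unionOf]
      simp [hcon2]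
    have h1 := not_lt.mp (h i)
    have h2 := Finset.card_le_card (unionOf_mono M (Finset.singleton_subset_iff.mpr hi))
    omega
  have hdc : ∑ x : Fin n, ((fam M).filter (fun A => x ∈ A)).card = ∑ A ∈ fam M, A.card := by
    simp_rw [Finset.card_filter]
    rw [Finset.sum_comm]
    refine Finset.sum_congr rfl fun A _ => ?_
    rw [← Finset.card_filter]
    congr 1
    ext x; simp
  have hsum : ∑ A ∈ fam M, A.card = ∑ A ∈ F', A.card := by
    rw [hF', Finset.sum_erase]
    simp
  have h3 : F'.card * (3 * n) ≤ 5 * ∑ A ∈ F', A.card := by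
    rw [Finset.mul_sum, ← smul_eq_mul, ← Finset.sum_const]
    exact Finset.sum_le_sum hlarge
  -- every element is in few members
  have h4 : ∀ x : Fin n, ((fam M).filter (fun A => x ∈ A)).card ≤ F'.card / 2 := by
    intro x
    have := hcon x
    omega
  have h5 : ∑ A ∈ F', A.card ≤ n * (F'.card / 2) := by
    rw [← hsum, ← hdc]
    refine (Finset.sum_le_sum fun x _ => h4 x).trans ?_
    simp
  have h6 : F'.card * (3 * n) ≤ 5 * (n * (F'.card / 2)) := h3.trans (Nat.mul_le_mul_left _ h5)
  have h7 : n * (3 * F'.card) ≤ n * (5 * (F'.card / 2)) := by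
    calc n * (3 * F'.card) = F'.card * (3 * n) := by ring
      _ ≤ _ := h6
      _ = _ := by ring
  have h8 := Nat.le_of_mul_le_mul_left h7 hn
  omega

/-- number of rows outside `I` contained in the union of the rows in `I` -/
noncomputable def cov {m n : ℕ} (M : Mat m n) (I : Finset (Fin m)) : ℕ :=
  (univ.filter (fun i => i ∉ I ∧ ∀ x, M i x = true → x ∈ unionOf M I)).card

lemma sum_choose_lt {m j : ℕ} (h : 5 * j ≤ m + 1) :
    3 * ∑ k ∈ range j, m.choose k ≤ m.choose j := by
  induction j with
  | zero => simp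
  | succ j ih =>
    have h1 := ih (by omega)
    have h2 : 4 * m.choose j ≤ m.choose (j + 1) := bin_inc (t := j) (by omega)
    rw [Finset.sum_range_succ]
    omega

/-- deterministic criterion with two levels, for the elements of a set `Y` of columns -/
lemma frankl_of_levelsY {m n j k T : ℕ} (hm : 0 < m) (M : Mat m n) (Y : Finset (Fin n))
    (hY : Y.Nonempty) (hjk : j ≤ k)
    (h1 : ∀ I ∈ powersetCard j (univ : Finset (Fin m)), 3 * Y.card ≤ 5 * (unionOf M I ∩ Y).card)
    (h2 : m.choose k ≤
      2 * ((powersetCard k (univ : Finset (Fin m))).filter (fun I => cov M I ≤ T)).card)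
    (hT : 10 * m ^ T * ∑ l ∈ range j, m.choose l ≤ m.choose k) : Frankl M := by
  by_contra hcon
  unfold Frankl at hcon
  push Not at hcon
  have hbig : ∀ I : Finset (Fin m), j ≤ I.card → 3 * Y.card ≤ 5 * (unionOf M I ∩ Y).card := by
    intro I hI
    obtain ⟨I', hI', hc⟩ := Finset.exists_subset_card_eq hI
    have h3 := h1 I' (by simp [mem_powersetCard, hc])
    have h4 := Finset.card_le_card (Finset.inter_subset_inter_right (unionOf_mono M hI')
      (u := Y))
    omega
  set Lo := (fam M).filter (fun A => 5 * (A ∩ Y).card < 3 * Y.card) with hLo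
  set Hi := (fam M).filter (fun A => ¬ 5 * (A ∩ Y).card < 3 * Y.card) with hHi
  have hLH : Lo.card + Hi.card = (fam M).card := Finset.card_filter_add_card_filter_not _
  have hLocard : Lo.card ≤ ∑ l ∈ range j, m.choose l := by
    have hsub : Lo ⊆
        (range j).biUnion (fun k => (powersetCard k (univ : Finset (Fin m))).image (unionOf M)) := by
      intro A hA
      rw [hLo, Finset.mem_filter, mem_fam] at hA
      obtain ⟨⟨I, rfl⟩, hA⟩ := hA
      rw [Finset.mem_biUnion]
      by_cases hI : I.card < j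
      · exact ⟨I.card, Finset.mem_range.mpr hI,
          Finset.mem_image.mpr ⟨I, by simp [mem_powersetCard], rfl⟩⟩
      · exfalso
        have := hbig I (not_lt.mp hI)
        omega
    refine (Finset.card_le_card hsub).trans (Finset.card_biUnion_le.trans
      (Finset.sum_le_sum fun j _ => ?_))
    refine Finset.card_image_le.trans ?_
    rw [Finset.card_powersetCard, Finset.card_univ, Fintype.card_fin]
  -- double counting
  have hdc : ∑ x ∈ Y, ((fam M).filter (fun A => x ∈ A)).card = ∑ A ∈ fam M, (A ∩ Y).card := by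
    simp_rw [Finset.card_filter]
    rw [Finset.sum_comm]
    refine Finset.sum_congr rfl fun A _ => ?_
    rw [← Finset.card_filter]
    congr 1
    ext x; simp [and_comm]
  have hlt : ∑ x ∈ Y, 2 * ((fam M).filter (fun A => x ∈ A)).card < ∑ x ∈ Y, (fam M).card :=
    Finset.sum_lt_sum_of_nonempty hY fun x _ => hcon x
  rw [← Finset.mul_sum, hdc, Finset.sum_const, smul_eq_mul] at hlt
  have hHi2 : Hi.card * (3 * Y.card) ≤ 5 * ∑ A ∈ fam M, (A ∩ Y).card := by
    calc Hi.card * (3 * Y.card) = ∑ A ∈ Hi, 3 * Y.card := by rw [Finset.sum_const, smul_eq_mul]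
      _ ≤ ∑ A ∈ Hi, 5 * (A ∩ Y).card := by
          refine Finset.sum_le_sum fun A hA => ?_
          rw [hHi, Finset.mem_filter] at hA
          exact not_lt.mp hA.2
      _ ≤ ∑ A ∈ fam M, 5 * (A ∩ Y).card :=
          Finset.sum_le_sum_of_subset (Finset.filter_subset _ _)
      _ = _ := by rw [Finset.mul_sum]
  have hYc : 0 < Y.card := Finset.card_pos.mpr hY
  have hHL : Hi.card < 5 * Lo.card := by
    have h3 : Y.card * (6 * Hi.card) < Y.card * (5 * (Lo.card + Hi.card)) := by
      rw [hLH]
      calc Y.card * (6 * Hi.card) = 2 * (Hi.card * (3 * Y.card)) := by ring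
        _ ≤ 2 * (5 * ∑ A ∈ fam M, (A ∩ Y).card) := Nat.mul_le_mul_left _ hHi2
        _ = 5 * (2 * ∑ A ∈ fam M, (A ∩ Y).card) := by ring
        _ < 5 * (Y.card * (fam M).card) := by omega
        _ = _ := by ring
    have := Nat.lt_of_mul_lt_mul_left h3
    omega
  set G := (powersetCard k (univ : Finset (Fin m))).filter (fun I => cov M I ≤ T) with hG
  -- multiplicities
  have hmult : G.card ≤ m ^ T * (G.image (unionOf M)).card := by
    refine Finset.card_le_mul_card_image _ _ ?_
    intro A hA
    obtain ⟨I0, hI0, rfl⟩ := Finset.mem_image.mp hA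
    rw [hG, Finset.mem_filter, Finset.mem_powersetCard] at hI0
    set S := (univ : Finset (Fin m)).filter (fun i => ∀ x, M i x = true → x ∈ unionOf M I0) with hS
    have hS1 : ∀ I, unionOf M I = unionOf M I0 → I ⊆ S := by
      intro I hI i hi
      rw [hS, Finset.mem_filter]
      refine ⟨Finset.mem_univ _, fun x hx => ?_⟩
      rw [← hI, mem_unionOf]
      exact ⟨i, hi, hx⟩
    have hScard : S.card ≤ k + T := by
      have h3 : S = I0 ∪ univ.filter (fun i => i ∉ I0 ∧ ∀ x, M i x = true → x ∈ unionOf M I0) := by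
        ext i
        rw [hS, Finset.mem_filter, Finset.mem_union, Finset.mem_filter]
        constructor
        · intro h
          by_cases hi : i ∈ I0
          · exact Or.inl hi
          · exact Or.inr ⟨Finset.mem_univ _, hi, h.2⟩
        · rintro (hi | hi)
          · have := hS1 I0 rfl hi
            rw [hS, Finset.mem_filter] at this
            exact this
          · exact ⟨Finset.mem_univ _, hi.2.2⟩
      rw [h3]
      refine (Finset.card_union_le _ _).trans ?_
      have h4 : (univ.filter (fun i => i ∉ I0 ∧ ∀ x, M i x = true → x ∈ unionOf M I0)).card ≤ T :=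
        hI0.2
      omega
    have hSge : k ≤ S.card := by
      have := Finset.card_le_card (hS1 I0 rfl)
      omega
    have hSm : S.card ≤ m := by simpa using Finset.card_le_univ S
    have h5 : (G.filter (fun I => unionOf M I = unionOf M I0)) ⊆ powersetCard k S := by
      intro I hI
      rw [Finset.mem_filter, hG, Finset.mem_filter, Finset.mem_powersetCard] at hI
      rw [Finset.mem_powersetCard]
      exact ⟨hS1 I hI.2, hI.1.1.2⟩
    refine (Finset.card_le_card h5).trans ?_
    rw [Finset.card_powersetCard, ← Nat.choose_symm hSge]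
    calc S.card.choose (S.card - k) ≤ S.card ^ (S.card - k) := Nat.choose_le_pow _ _
      _ ≤ m ^ (S.card - k) := Nat.pow_le_pow_left hSm _
      _ ≤ m ^ T := Nat.pow_le_pow_right hm (by omega)
  have himg : (G.image (unionOf M)).card ≤ Hi.card := by
    refine Finset.card_le_card ?_
    intro A hA
    obtain ⟨I, hI, rfl⟩ := Finset.mem_image.mp hA
    rw [hG, Finset.mem_filter, Finset.mem_powersetCard] at hI
    rw [hHi, Finset.mem_filter, mem_fam]
    exact ⟨⟨I, rfl⟩, not_lt.mpr (hbig I (by omega))⟩
  have hmT : 0 < m ^ T := Nat.pow_pos hm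
  have hc4 : 5 * ∑ l ∈ range j, m.choose l ≤ (G.image (unionOf M)).card := by
    have : m ^ T * (5 * ∑ l ∈ range j, m.choose l) ≤ m ^ T * (G.image (unionOf M)).card := by
      have e1 : 10 * m ^ T * ∑ l ∈ range j, m.choose l =
        2 * (m ^ T * (5 * ∑ l ∈ range j, m.choose l)) := by ring
      omega
    exact Nat.le_of_mul_le_mul_left this hmT
  omega

/-- criterion for the middle range -/
lemma frankl_of_levels {m n j T : ℕ} (hn : 0 < n) (hm : 0 < m) (M : Mat m n)
    (h1 : ∀ I ∈ powersetCard j (univ : Finset (Fin m)), ¬ 5 * (unionOf M I).card < 3 * n)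
    (h2 : m.choose (2 * j) ≤
      2 * ((powersetCard (2 * j) (univ : Finset (Fin m))).filter (fun I => cov M I ≤ T)).card)
    (hj : 10 * j ≤ m + 1) (hT : 10 * m ^ T ≤ 4 ^ j) : Frankl M := by
  refine frankl_of_levelsY (j := j) (k := 2 * j) hm M univ ⟨⟨0, hn⟩, Finset.mem_univ _⟩ (by omega)
    ?_ h2 ?_
  · intro I hI
    have := not_lt.mp (h1 I hI)
    simpa using this
  · have hc1 : 3 * ∑ k ∈ range j, m.choose k ≤ m.choose j := sum_choose_lt (by omega)
    have hc2 : 4 ^ j * m.choose j ≤ m.choose (2 * j) := by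
      have := bin_inc_chain (N := m) (t0 := j) j (by omega)
      rwa [← two_mul] at this
    calc 10 * m ^ T * ∑ l ∈ range j, m.choose l ≤ 4 ^ j * m.choose j :=
          Nat.mul_le_mul hT (by omega)
      _ ≤ _ := hc2

/-- an isolated nonempty row -/
lemma frankl_of_isolated {m n : ℕ} (M : Mat m n)
    (h : ∃ i, (∃ x, M i x = true) ∧ ∀ x, M i x = true → ∀ k, k ≠ i → M k x = false) :
    Frankl M := by
  obtain ⟨i, ⟨x, hx⟩, hiso⟩ := h
  refine ⟨x, ?_⟩
  have hdis : ∀ A ∈ (fam M).filter (fun A => ¬ x ∈ A), Disjoint A (unionOf M {i}) := by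
    intro A hA
    rw [Finset.mem_filter, mem_fam] at hA
    obtain ⟨⟨I, rfl⟩, hA⟩ := hA
    have hi : i ∉ I := fun hi => hA ((mem_unionOf _ _ _).mpr ⟨i, hi, hx⟩)
    rw [Finset.disjoint_left]
    intro y hy hy'
    rw [mem_unionOf] at hy hy'
    obtain ⟨k, hk, hky⟩ := hy
    obtain ⟨l, hl, hly⟩ := hy'
    rw [Finset.mem_singleton] at hl
    subst hl
    have hne : k ≠ l := fun h => hi (h ▸ hk)
    rw [hiso y hly k hne] at hky
    exact Bool.noConfusion hky
  have hinj : ((fam M).filter (fun A => ¬ x ∈ A)).card ≤ ((fam M).filter (fun A => x ∈ A)).card := by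
    refine Finset.card_le_card_of_injOn (fun A => A ∪ unionOf M {i}) ?_ ?_
    · intro A hA
      rw [Finset.mem_coe, Finset.mem_filter, mem_fam] at hA
      obtain ⟨⟨I, rfl⟩, hA⟩ := hA
      rw [Finset.mem_coe, Finset.mem_filter, mem_fam]
      refine ⟨⟨insert i I, ?_⟩, Finset.mem_union_right _
        ((mem_unionOf _ _ _).mpr ⟨i, Finset.mem_singleton_self _, hx⟩)⟩
      ext y
      rw [Finset.mem_union, mem_unionOf, mem_unionOf, mem_unionOf]
      constructor
      · rintro ⟨k, hk, hy⟩
        rcases Finset.mem_insert.mp hk with rfl | hk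
        · exact Or.inr ⟨k, Finset.mem_singleton_self _, hy⟩
        · exact Or.inl ⟨k, hk, hy⟩
      · rintro (⟨k, hk, hy⟩ | ⟨k, hk, hy⟩)
        · exact ⟨k, Finset.mem_insert_of_mem hk, hy⟩
        · rw [Finset.mem_singleton] at hk
          exact ⟨i, Finset.mem_insert_self _ _, hk ▸ hy⟩
    · intro A hA B hB hAB
      have hA' := hdis A hA
      have hB' := hdis B hB
      have h1 : (A ∪ unionOf M {i}) \ unionOf M {i} = (B ∪ unionOf M {i}) \ unionOf M {i} := by
        have : A ∪ unionOf M {i} = B ∪ unionOf M {i} := hAB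
        rw [this]
      rwa [Finset.union_sdiff_cancel_right hA', Finset.union_sdiff_cancel_right hB'] at h1
  have h2 := Finset.card_filter_add_card_filter_not (s := fam M) (fun A => x ∈ A)
  omega

/-- all rows have private elements -/
lemma frankl_of_private {m n : ℕ} (hm : 0 < m) (M : Mat m n)
    (h : ∀ i, ∃ x, M i x = true ∧ ∀ k, k ≠ i → M k x = false) : Frankl M := by
  have hinj : Function.Injective (unionOf M) := by
    intro I I' hI
    ext i
    obtain ⟨x, hx, hx'⟩ := h i
    have key : ∀ J : Finset (Fin m), i ∈ J ↔ x ∈ unionOf M J := by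
      intro J
      rw [mem_unionOf]
      constructor
      · intro hi; exact ⟨i, hi, hx⟩
      · rintro ⟨k, hk, hkx⟩
        by_contra hi
        have hne : k ≠ i := fun h => hi (h ▸ hk)
        rw [hx' k hne] at hkx
        exact Bool.noConfusion hkx
    rw [key, key, hI]
  obtain ⟨x, hx, hx'⟩ := h ⟨0, hm⟩
  refine ⟨x, ?_⟩
  have hle : ((fam M).filter (fun A => ¬ x ∈ A)).card ≤ ((fam M).filter (fun A => x ∈ A)).card := by
    unfold fam
    rw [Finset.filter_image, Finset.filter_image, Finset.card_image_of_injective _ hinj,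
      Finset.card_image_of_injective _ hinj]
    refine Finset.card_le_card_of_injOn (fun I => insert (⟨0, hm⟩ : Fin m) I) ?_ ?_
    · intro I _
      rw [Finset.mem_coe, Finset.mem_filter]
      exact ⟨Finset.mem_univ _, (mem_unionOf _ _ _).mpr ⟨_, Finset.mem_insert_self _ _, hx⟩⟩
    · intro I hI J hJ hIJ
      rw [Finset.mem_coe, Finset.mem_filter] at hI hJ
      have hI' : (⟨0, hm⟩ : Fin m) ∉ I := fun h => hI.2 ((mem_unionOf _ _ _).mpr ⟨_, h, hx⟩)
      have hJ' : (⟨0, hm⟩ : Fin m) ∉ J := fun h => hJ.2 ((mem_unionOf _ _ _).mpr ⟨_, h, hx⟩)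
      have h1 := congrArg (fun S => Finset.erase S (⟨0, hm⟩ : Fin m)) hIJ
      simpa [Finset.erase_insert hI', Finset.erase_insert hJ'] using h1
  have h2 := Finset.card_filter_add_card_filter_not (s := fam M) (fun A => x ∈ A)
  omega

end Pool.Agent.TH84.UC
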