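import Pool.Agent.TH84.UC.Det

set_option autoImplicit false

/-!
# Probability estimates
-/

namespace Pool.Agent.TH84.UC

open Finset
open scoped Classical
open Pool.Agent.H161R2.UC

lemma Pr_zero {m n : ℕ} : Pr 0 (fun M : Mat m n => NZ M ∧ ¬ Frankl M) = 0 := by
  unfold Pr
  refine Finset.sum_eq_zero fun M _ => ?_
  by_cases h : NZ M
  · obtain ⟨i, x, hx⟩ := h
    have h0 : wt 0 M = 0 := by
      unfold wt
      refine Finset.prod_eq_zero (Finset.mem_univ i) (Finset.prod_eq_zero (Finset.mem_univ x) ?_)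
      simp [bw, hx]
    rw [h0]; simp
  · rw [if_neg (fun h' => h h'.1)]

lemma Pr_one {m n : ℕ} : Pr 1 (fun M : Mat m n => NZ M ∧ ¬ Frankl M) = 0 := by
  unfold Pr
  refine Finset.sum_eq_zero fun M _ => ?_
  by_cases h : ∀ i x, M i x = true
  · rw [if_neg]
    rintro ⟨⟨i, x, _⟩, hF⟩
    exact hF (frankl_of_common i.pos M ⟨x, fun i => h i x⟩)
  · push Not at h
    obtain ⟨i, x, hx⟩ := h
    have h0 : wt 1 M = 0 := by
      unfold wt
      refine Finset.prod_eq_zero (Finset.mem_univ i) (Finset.prod_eq_zero (Finset.mem_univ x) ?_)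
      simp [bw, hx]
    rw [h0]; simp

lemma Pr_dense {p : ℝ} (h0 : 97 / 100 ≤ p) (h1 : p < 1) {m n : ℕ} :
    Pr p (fun M : Mat m n => NZ M ∧ ¬ Frankl M) ≤ m * (1 / 2) ^ n := by
  have hp : 0 < p := by linarith
  calc Pr p (fun M : Mat m n => NZ M ∧ ¬ Frankl M)
      ≤ Pr p (fun M : Mat m n => ∃ i ∈ (univ : Finset (Fin m)), 5 * (unionOf M {i}).card < 3 * n) := by
        refine Pr_mono hp.le h1.le fun M hM => ?_
        by_contra hcon
        push Not at hcon
        exact hM.2 (frankl_of_rows_large M hM.1 fun i => not_lt.mpr (hcon i (Finset.mem_univ i)))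
    _ ≤ ∑ i : Fin m, Pr p (fun M : Mat m n => 5 * (unionOf M {i}).card < 3 * n) :=
        Pr_exists hp.le h1.le _ _
    _ ≤ ∑ i : Fin m, (1 / 2 : ℝ) ^ n := by
        refine Finset.sum_le_sum fun i _ => ?_
        refine (Pr_small hp h1 {i}).trans ?_
        rw [Finset.card_singleton, pow_one]
        exact pow_le_pow_left₀ (by linarith) (by linarith) _
    _ = _ := by simp

/-- expected number of covered rows -/
lemma Ex_cov {p : ℝ} (h0 : 0 < p) (h1 : p < 1) {m n : ℕ} (I : Finset (Fin m)) :
    Ex p (fun M : Mat m n => (cov M I : ℝ)) ≤ m * (1 - (1 - p) ^ I.card * p) ^ n := by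
  have hq0 : 0 ≤ (1 - p) ^ I.card := pow_nonneg (by linarith) _
  have hq1 : (1 - p) ^ I.card ≤ 1 := pow_le_one₀ (by linarith) (by linarith)
  have hβ : 0 ≤ 1 - (1 - p) ^ I.card * p := by nlinarith
  have e1 : (fun M : Mat m n => (cov M I : ℝ)) = fun M => ∑ i : Fin m,
      ind (i ∉ I ∧ ∀ x, M i x = true → x ∈ unionOf M I) := by
    funext M
    unfold cov
    rw [Finset.card_filter]
    push_cast
    refine Finset.sum_congr rfl fun i _ => ?_
    by_cases h : i ∉ I ∧ ∀ x, M i x = true → x ∈ unionOf M I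
    · rw [if_pos h, ind_pos h]
    · rw [if_neg h, ind_neg h]
  rw [e1, Ex_sum]
  calc ∑ i : Fin m, Ex p (fun M : Mat m n => ind (i ∉ I ∧ ∀ x, M i x = true → x ∈ unionOf M I))
      ≤ ∑ i : Fin m, (1 - (1 - p) ^ I.card * p) ^ n := by
        refine Finset.sum_le_sum fun i _ => ?_
        by_cases hi : i ∈ I
        · have : (fun M : Mat m n => ind (i ∉ I ∧ ∀ x, M i x = true → x ∈ unionOf M I)) =
              fun _ => 0 := by
            funext M
            rw [ind_neg]
            exact fun h => h.1 hi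
          rw [this]
          have : Ex p (fun _ : Mat m n => (0:ℝ)) = 0 := by unfold Ex; simp
          rw [this]
          exact pow_nonneg hβ _
        · have e2 : Ex p (fun M : Mat m n => ind (i ∉ I ∧ ∀ x, M i x = true → x ∈ unionOf M I)) =
              ∏ x : Fin n, Ev p (fun (r : Fin m → Bool) => ind (¬ ((∀ j ∈ I, r j = false) ∧
                (∀ j ∈ ({i} : Finset (Fin m)), r j = true)))) := by
            rw [← Ex_cols]
            congr 1
            funext M
            rw [ind_prod]
            congr 1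
            apply propext
            constructor
            · intro h x _ hx
              exact (not_mem_unionOf M I x).mpr hx.1 (h.2 x (hx.2 i (Finset.mem_singleton_self _)))
            · intro h
              refine ⟨hi, fun x hx => ?_⟩
              by_contra hcon
              refine h x (Finset.mem_univ _) ⟨(not_mem_unionOf M I x).mp hcon, ?_⟩
              intro j hj
              rw [Finset.mem_singleton] at hj
              rw [hj]; exact hx
          rw [e2, Finset.prod_const, Finset.card_univ, Fintype.card_fin, Ev_not_cyl]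
          · rw [Finset.card_singleton, pow_one]
          · rwa [Finset.disjoint_singleton_right]
    _ = _ := by simp

lemma Pr_cov {p : ℝ} (h0 : 0 < p) (h1 : p < 1) {m n : ℕ} (T : ℕ) (I : Finset (Fin m)) :
    Pr p (fun M : Mat m n => ¬ cov M I ≤ T) ≤ m * (1 - (1 - p) ^ I.card * p) ^ n / (T + 1) := by
  have hM := markov h0.le h1.le (m := m) (n := n) (fun M => (cov M I : ℝ))
    (fun M => by positivity) (T + 1)
  rw [le_div_iff₀ (by positivity)]
  calc Pr p (fun M : Mat m n => ¬ cov M I ≤ T) * (T + 1)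
      ≤ Pr p (fun M : Mat m n => ((T:ℝ) + 1) ≤ (cov M I : ℝ)) * (T + 1) := by
        refine mul_le_mul_of_nonneg_right (Pr_mono h0.le h1.le fun M hM => ?_) (by positivity)
        have : T + 1 ≤ cov M I := by omega
        exact_mod_cast this
    _ = ((T:ℝ) + 1) * Pr p (fun M : Mat m n => ((T:ℝ) + 1) ≤ (cov M I : ℝ)) := mul_comm _ _
    _ ≤ _ := hM.trans (Ex_cov h0 h1 I)

lemma Pr_bad {p : ℝ} (h0 : 0 < p) (h1 : p < 1) {m n k : ℕ} (T : ℕ) (hk : k ≤ m) :
    Pr p (fun M : Mat m n => ¬ (m.choose k ≤
      2 * ((powersetCard k (univ : Finset (Fin m))).filter (fun I => cov M I ≤ T)).card)) ≤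
      2 * (m * (1 - (1 - p) ^ k * p) ^ n / (T + 1)) := by
  set N : ℝ := (m.choose k : ℝ) with hN
  have hNpos : 0 < N := by
    rw [hN]; exact_mod_cast Nat.choose_pos hk
  have hM := markov h0.le h1.le (m := m) (n := n)
    (fun M => ∑ I ∈ powersetCard k (univ : Finset (Fin m)), ind (¬ cov M I ≤ T))
    (fun M => Finset.sum_nonneg fun I _ => ind_nonneg _) (N / 2)
  have hE : Ex p (fun M : Mat m n => ∑ I ∈ powersetCard k (univ : Finset (Fin m)),
      ind (¬ cov M I ≤ T)) ≤ N * (m * (1 - (1 - p) ^ k * p) ^ n / (T + 1)) := by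
    rw [Ex_sum]
    calc ∑ I ∈ powersetCard k (univ : Finset (Fin m)), Ex p (fun M : Mat m n => ind (¬ cov M I ≤ T))
        ≤ ∑ I ∈ powersetCard k (univ : Finset (Fin m)),
            (m * (1 - (1 - p) ^ k * p) ^ n / (T + 1) : ℝ) := by
          refine Finset.sum_le_sum fun I hI => ?_
          have := Pr_cov h0 h1 (n := n) T I
          rw [Pr_eq_Ex, (Finset.mem_powersetCard.mp hI).2] at this
          exact this
      _ = _ := by
          rw [Finset.sum_const, Finset.card_powersetCard, Finset.card_univ, Fintype.card_fin,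
            nsmul_eq_mul]
  have h3 : Pr p (fun M : Mat m n => ¬ (m.choose k ≤
      2 * ((powersetCard k (univ : Finset (Fin m))).filter (fun I => cov M I ≤ T)).card)) ≤
      Pr p (fun M : Mat m n => N / 2 ≤
        ∑ I ∈ powersetCard k (univ : Finset (Fin m)), ind (¬ cov M I ≤ T)) := by
    refine Pr_mono h0.le h1.le fun M hM => ?_
    have e1 : ∑ I ∈ powersetCard k (univ : Finset (Fin m)), ind (¬ cov M I ≤ T) =
        (((powersetCard k (univ : Finset (Fin m))).filter (fun I => ¬ cov M I ≤ T)).card : ℝ) := by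
      rw [Finset.card_filter]
      push_cast
      refine Finset.sum_congr rfl fun I _ => ?_
      by_cases h : ¬ cov M I ≤ T
      · rw [if_pos h, ind_pos h]
      · rw [if_neg h, ind_neg h]
    have e2 := Finset.card_filter_add_card_filter_not
      (s := powersetCard k (univ : Finset (Fin m))) (fun I => cov M I ≤ T)
    rw [Finset.card_powersetCard, Finset.card_univ, Fintype.card_fin] at e2
    have e3 : m.choose k ≤
        2 * ((powersetCard k (univ : Finset (Fin m))).filter (fun I => ¬ cov M I ≤ T)).card := by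
      omega
    have e4 : N ≤ 2 * (((powersetCard k (univ : Finset (Fin m))).filter
        (fun I => ¬ cov M I ≤ T)).card : ℝ) := by
      rw [hN]; exact_mod_cast e3
    rw [e1]; linarith
  refine h3.trans ?_
  have h4 := hM.trans hE
  have h5 : N / 2 * Pr p (fun M : Mat m n => N / 2 ≤
        ∑ I ∈ powersetCard k (univ : Finset (Fin m)), ind (¬ cov M I ≤ T)) ≤
      N / 2 * (2 * (m * (1 - (1 - p) ^ k * p) ^ n / (T + 1))) := by
    refine h4.trans (le_of_eq ?_)
    ring
  exact le_of_mul_le_mul_left h5 (by linarith)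

/-- the main estimate in the middle range -/
lemma Pr_mid {p : ℝ} (h0 : 0 < p) (h1 : p < 1) {m n j T : ℕ} (hn : 0 < n) (hm : 0 < m)
    (hj : 10 * j ≤ m + 1) (hT : 10 * m ^ T ≤ 4 ^ j) :
    Pr p (fun M : Mat m n => ¬ Frankl M) ≤
      (m.choose j : ℝ) * (8 * (1 - p) ^ j + 1 / 4) ^ n +
        2 * (m * (1 - (1 - p) ^ (2 * j) * p) ^ n / (T + 1)) := by
  calc Pr p (fun M : Mat m n => ¬ Frankl M)
      ≤ Pr p (fun M : Mat m n =>
          (∃ I ∈ powersetCard j (univ : Finset (Fin m)), 5 * (unionOf M I).card < 3 * n) ∨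
          ¬ (m.choose (2 * j) ≤ 2 * ((powersetCard (2 * j) (univ : Finset (Fin m))).filter
            (fun I => cov M I ≤ T)).card)) := by
        refine Pr_mono h0.le h1.le fun M hM => ?_
        by_contra hcon
        push Not at hcon
        apply hM
        exact frankl_of_levels hn hm M (fun I hI => not_lt.mpr (hcon.1 I hI)) hcon.2 hj hT
    _ ≤ _ := Pr_or h0.le h1.le _ _
    _ ≤ (m.choose j : ℝ) * (8 * (1 - p) ^ j + 1 / 4) ^ n +
        2 * (m * (1 - (1 - p) ^ (2 * j) * p) ^ n / (T + 1)) := by
        refine add_le_add ?_ (Pr_bad h0 h1 T (by omega))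
        refine (Pr_exists h0.le h1.le _ _).trans ?_
        calc ∑ I ∈ powersetCard j (univ : Finset (Fin m)),
              Pr p (fun M : Mat m n => 5 * (unionOf M I).card < 3 * n)
            ≤ ∑ I ∈ powersetCard j (univ : Finset (Fin m)), (8 * (1 - p) ^ j + 1 / 4 : ℝ) ^ n := by
              refine Finset.sum_le_sum fun I hI => ?_
              have := Pr_small h0 h1 (n := n) I
              rwa [(Finset.mem_powersetCard.mp hI).2] at this
          _ = _ := by
              rw [Finset.sum_const, Finset.card_powersetCard, Finset.card_univ, Fintype.card_fin,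
                nsmul_eq_mul]

/-! ### sparse case -/

/-- probability that a random vector has exactly one `true` -/
lemma Ev_single {p : ℝ} {n : ℕ} :
    Ev p (fun r : Fin n → Bool => ind (∃ x, ∀ y, r y = true ↔ y = x)) =
      n * ((1 - p) ^ (n - 1) * p) := by
  have e1 : (fun r : Fin n → Bool => ind (∃ x, ∀ y, r y = true ↔ y = x)) =
      fun r => ∑ x : Fin n, ind ((∀ y ∈ (univ.erase x), r y = false) ∧
        (∀ y ∈ ({x} : Finset (Fin n)), r y = true)) := by
    funext r
    have e2 : ∀ x, ((∀ y ∈ (univ.erase x), r y = false) ∧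
        (∀ y ∈ ({x} : Finset (Fin n)), r y = true)) ↔ ∀ y, r y = true ↔ y = x := by
      intro x
      constructor
      · rintro ⟨h1, h2⟩ y
        constructor
        · intro hy
          by_contra hne
          have := h1 y (Finset.mem_erase.mpr ⟨hne, Finset.mem_univ _⟩)
          rw [hy] at this
          exact Bool.noConfusion this
        · rintro rfl
          exact h2 y (Finset.mem_singleton_self _)
      · intro h
        refine ⟨fun y hy => ?_, fun y hy => ?_⟩
        · rw [← Bool.not_eq_true]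
          exact fun h' => (Finset.mem_erase.mp hy).1 ((h y).mp h')
        · exact (h y).mpr (Finset.mem_singleton.mp hy)
    simp_rw [e2]
    by_cases h : ∃ x, ∀ y, r y = true ↔ y = x
    · rw [ind_pos h]
      obtain ⟨x, hx⟩ := h
      rw [Finset.sum_eq_single x]
      · rw [ind_pos hx]
      · intro z _ hz
        rw [ind_neg]
        intro hz'
        have h1 := (hx x).mpr rfl
        exact hz ((hz' x).mp h1).symm
      · intro h'
        exact absurd (Finset.mem_univ x) h'
    · rw [ind_neg h]
      symm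
      refine Finset.sum_eq_zero fun x _ => ind_neg fun hx => h ⟨x, hx⟩
  rw [e1]
  have e3 : Ev p (fun r : Fin n → Bool => ∑ x : Fin n, ind ((∀ y ∈ (univ.erase x), r y = false) ∧
        (∀ y ∈ ({x} : Finset (Fin n)), r y = true))) =
      ∑ x : Fin n, Ev p (fun r : Fin n → Bool => ind ((∀ y ∈ (univ.erase x), r y = false) ∧
        (∀ y ∈ ({x} : Finset (Fin n)), r y = true))) := by
    unfold Ev
    rw [Finset.sum_comm]
    refine Finset.sum_congr rfl fun r _ => ?_
    rw [Finset.mul_sum]
  rw [e3, Finset.sum_congr rfl (fun x _ => Ev_cyl p (univ.erase x) {x} (by simp))]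
  simp

lemma Pr_no_single {p : ℝ} (h0 : 0 ≤ p) (h1 : p ≤ 1) {m n : ℕ} :
    Pr p (fun M : Mat m n => ¬ Frankl M) ≤ (1 - n * ((1 - p) ^ (n - 1) * p)) ^ m := by
  calc Pr p (fun M : Mat m n => ¬ Frankl M)
      ≤ Pr p (fun M : Mat m n => ∀ i, ¬ ∃ x, ∀ y, M i y = true ↔ y = x) := by
        refine Pr_mono h0 h1 fun M hM i hi => ?_
        obtain ⟨x, hx⟩ := hi
        exact hM (frankl_of_single M ⟨i, x, hx⟩)
    _ = (1 - n * ((1 - p) ^ (n - 1) * p)) ^ m := by
        rw [Pr_eq_Ex]
        have e : Ex p (fun M : Mat m n => ind (∀ i, ¬ ∃ x, ∀ y, M i y = true ↔ y = x)) =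
            ∏ i : Fin m, Ev p (fun (r : Fin n → Bool) =>
              ind (¬ ∃ x, ∀ y, r y = true ↔ y = x)) := by
          rw [← Ex_rows]
          congr 1
          funext M
          rw [ind_prod]
          simp only [Finset.mem_univ, forall_true_left]
        rw [e, Finset.prod_const, Finset.card_univ, Fintype.card_fin]
        congr 1
        simp_rw [ind_not]
        rw [Ev_sub, Ev_one, Ev_single]

lemma Pr_pair {p : ℝ} {m n : ℕ} (i : Fin m) {x y : Fin n} (hxy : x ≠ y) :
    Pr p (fun M : Mat m n => M i x = true ∧ M i y = true) = p ^ 2 := by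
  rw [Pr_eq_Ex]
  have e : Ex p (fun M : Mat m n => ind (M i x = true ∧ M i y = true)) =
      ∏ k : Fin m, Ev p (fun (r : Fin n → Bool) =>
        ind ((∀ z ∈ (∅ : Finset (Fin n)), r z = false) ∧
          (∀ z ∈ (if k = i then {x, y} else ∅ : Finset (Fin n)), r z = true))) := by
    rw [← Ex_rows]
    congr 1
    funext M
    rw [ind_prod]
    congr 1
    apply propext
    constructor
    · intro h k _
      refine ⟨by simp, ?_⟩
      by_cases hk : k = i
      · subst hk
        simp [h.1, h.2]
      · simp [hk]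
    · intro h
      have := (h i (Finset.mem_univ _)).2
      simpa using this
  rw [e, Finset.prod_congr rfl (fun k _ => Ev_cyl p _ _ (by simp))]
  rw [Finset.prod_eq_single i]
  · rw [if_pos rfl, Finset.card_pair hxy]; simp
  · intro k _ hk
    rw [if_neg hk]; simp
  · intro h; exact absurd (Finset.mem_univ i) h

lemma Pr_very_sparse {p : ℝ} (h0 : 0 ≤ p) (h1 : p ≤ 1) {m n : ℕ} :
    Pr p (fun M : Mat m n => NZ M ∧ ¬ Frankl M) ≤ m * n ^ 2 * p ^ 2 := by
  calc Pr p (fun M : Mat m n => NZ M ∧ ¬ Frankl M)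
      ≤ Pr p (fun M : Mat m n => ∃ t ∈ (univ : Finset (Fin m)) ×ˢ
          ((univ : Finset (Fin n)) ×ˢ (univ : Finset (Fin n))),
          t.2.1 ≠ t.2.2 ∧ M t.1 t.2.1 = true ∧ M t.1 t.2.2 = true) := by
        refine Pr_mono h0 h1 fun M hM => ?_
        by_contra hcon
        push Not at hcon
        obtain ⟨i, x, hx⟩ := hM.1
        apply hM.2
        apply frankl_of_single M
        refine ⟨i, x, fun y => ⟨fun hy => ?_, fun hy => hy ▸ hx⟩⟩
        by_contra hne
        exact hcon (i, (y, x)) (by simp) hne hy hx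
    _ ≤ ∑ t ∈ (univ : Finset (Fin m)) ×ˢ ((univ : Finset (Fin n)) ×ˢ (univ : Finset (Fin n))),
          Pr p (fun M : Mat m n => t.2.1 ≠ t.2.2 ∧ M t.1 t.2.1 = true ∧ M t.1 t.2.2 = true) :=
        Pr_exists h0 h1 _ _
    _ ≤ ∑ t ∈ (univ : Finset (Fin m)) ×ˢ ((univ : Finset (Fin n)) ×ˢ (univ : Finset (Fin n))),
          p ^ 2 := by
        refine Finset.sum_le_sum fun t _ => ?_
        by_cases ht : t.2.1 = t.2.2
        · have : Pr p (fun M : Mat m n => t.2.1 ≠ t.2.2 ∧ M t.1 t.2.1 = true ∧
              M t.1 t.2.2 = true) = 0 := by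
            unfold Pr
            exact Finset.sum_eq_zero fun M _ => if_neg fun h => h.1 ht
          rw [this]; positivity
        · rw [← Pr_pair t.1 ht]
          exact Pr_mono h0 h1 fun M h => h.2
    _ = _ := by
        rw [Finset.sum_const, Finset.card_product, Finset.card_product, Finset.card_univ,
          Finset.card_univ, Fintype.card_fin, Fintype.card_fin, nsmul_eq_mul]
        push_cast
        ring

end Pool.Agent.TH84.UC
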