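import Pool.Agent.TH84.UC.Prob

set_option autoImplicit false

/-!
# Probability estimates, second part: isolated rows, private elements, columns of degree two
-/

namespace Pool.Agent.TH84.UC

open Finset
open scoped Classical
open Pool.Agent.H161R2.UC

/-! ### few rows -/

lemma Pr_private {p : ℝ} (h0 : 0 ≤ p) (h1 : p ≤ 1) {m n : ℕ} (hm : 0 < m) :
    Pr p (fun M : Mat m n => ¬ Frankl M) ≤ m * (1 - (1 - p) ^ (m - 1) * p) ^ n := by
  calc Pr p (fun M : Mat m n => ¬ Frankl M)
      ≤ Pr p (fun M : Mat m n => ∃ i ∈ (univ : Finset (Fin m)),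
          ∀ x, ¬ ((∀ k ∈ univ.erase i, M k x = false) ∧ (∀ k ∈ ({i} : Finset (Fin m)), M k x = true))) := by
        refine Pr_mono h0 h1 fun M hM => ?_
        by_contra hcon
        push Not at hcon
        apply hM
        refine frankl_of_private hm M fun i => ?_
        obtain ⟨x, hx1, hx2⟩ := hcon i (Finset.mem_univ i)
        exact ⟨x, hx2 i (Finset.mem_singleton_self _), fun k hk =>
          hx1 k (Finset.mem_erase.mpr ⟨hk, Finset.mem_univ _⟩)⟩
    _ ≤ ∑ i : Fin m, Pr p (fun M : Mat m n => ∀ x, ¬ ((∀ k ∈ univ.erase i, M k x = false) ∧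
          (∀ k ∈ ({i} : Finset (Fin m)), M k x = true))) := Pr_exists h0 h1 _ _
    _ = ∑ i : Fin m, (1 - (1 - p) ^ (m - 1) * p) ^ n := by
        refine Finset.sum_congr rfl fun i _ => ?_
        rw [Pr_eq_Ex]
        have e : Ex p (fun M : Mat m n => ind (∀ x, ¬ ((∀ k ∈ univ.erase i, M k x = false) ∧
          (∀ k ∈ ({i} : Finset (Fin m)), M k x = true)))) =
          ∏ x : Fin n, Ev p (fun (r : Fin m → Bool) => ind (¬ ((∀ k ∈ univ.erase i, r k = false) ∧
          (∀ k ∈ ({i} : Finset (Fin m)), r k = true)))) := by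
          rw [← Ex_cols]
          congr 1
          funext M
          rw [ind_prod]
          simp only [Finset.mem_univ, forall_true_left]
        rw [e, Finset.prod_const, Finset.card_univ, Fintype.card_fin, Ev_not_cyl _ _ _ (by simp)]
        simp
    _ = _ := by simp

lemma Pr_disjoint {p : ℝ} (h0 : 0 ≤ p) (h1 : p ≤ 1) {m n : ℕ} :
    Pr p (fun M : Mat m n => NZ M ∧ ¬ Frankl M) ≤ n * m ^ 2 * p ^ 2 := by
  calc Pr p (fun M : Mat m n => NZ M ∧ ¬ Frankl M)
      ≤ Pr p (fun M : Mat m n => ∃ t ∈ (univ : Finset (Fin n)) ×ˢ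
          ((univ : Finset (Fin m)) ×ˢ (univ : Finset (Fin m))),
          t.2.1 ≠ t.2.2 ∧ M t.2.1 t.1 = true ∧ M t.2.2 t.1 = true) := by
        refine Pr_mono h0 h1 fun M hM => ?_
        by_contra hcon
        push Not at hcon
        obtain ⟨i, x, hx⟩ := hM.1
        apply hM.2
        apply frankl_of_isolated M
        refine ⟨i, ⟨x, hx⟩, fun y hy k hk => ?_⟩
        rw [← Bool.not_eq_true]
        intro hky
        exact hcon (y, (k, i)) (by simp) hk hky hy
    _ ≤ ∑ t ∈ (univ : Finset (Fin n)) ×ˢ ((univ : Finset (Fin m)) ×ˢ (univ : Finset (Fin m))),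
          Pr p (fun M : Mat m n => t.2.1 ≠ t.2.2 ∧ M t.2.1 t.1 = true ∧ M t.2.2 t.1 = true) :=
        Pr_exists h0 h1 _ _
    _ ≤ ∑ t ∈ (univ : Finset (Fin n)) ×ˢ ((univ : Finset (Fin m)) ×ˢ (univ : Finset (Fin m))),
          p ^ 2 := by
        refine Finset.sum_le_sum fun t _ => ?_
        by_cases ht : t.2.1 = t.2.2
        · have : Pr p (fun M : Mat m n => t.2.1 ≠ t.2.2 ∧ M t.2.1 t.1 = true ∧
              M t.2.2 t.1 = true) = 0 := by
            unfold Pr
            exact Finset.sum_eq_zero fun M _ => if_neg fun h => h.1 ht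
          rw [this]; positivity
        · have e1 := Pr_tr p (m := m) (n := n)
            (fun N : Mat n m => N t.1 t.2.1 = true ∧ N t.1 t.2.2 = true)
          rw [Pr_pair t.1 ht] at e1
          rw [← e1]
          exact Pr_mono h0 h1 fun M h => h.2
    _ = _ := by
        rw [Finset.sum_const, Finset.card_product, Finset.card_product, Finset.card_univ,
          Finset.card_univ, Fintype.card_fin, Fintype.card_fin, nsmul_eq_mul]
        push_cast
        ring

/-! ### isolated rows -/

/-- row `i` is disjoint from the other rows -/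
def Iso {m n : ℕ} (M : Mat m n) (i : Fin m) : Prop :=
  ∀ x, M i x = true → ∀ k, k ≠ i → M k x = false

/-- row `i` is nonempty and disjoint from the other rows -/
def IsoNE {m n : ℕ} (M : Mat m n) (i : Fin m) : Prop := (∃ x, M i x = true) ∧ Iso M i

lemma Ev_add (p : ℝ) {k : ℕ} (f g : (Fin k → Bool) → ℝ) :
    Ev p (fun r => f r + g r) = Ev p f + Ev p g := by
  unfold Ev
  rw [← Finset.sum_add_distrib]
  refine Finset.sum_congr rfl fun r _ => ?_
  ring

lemma Ev_mul (p c : ℝ) {k : ℕ} (f : (Fin k → Bool) → ℝ) :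
    Ev p (fun r => c * f r) = c * Ev p f := by
  unfold Ev
  rw [Finset.mul_sum]
  refine Finset.sum_congr rfl fun r _ => ?_
  ring

lemma Pr_iso {p : ℝ} {m n : ℕ} (i : Fin m) :
    Pr p (fun M : Mat m n => Iso M i) = ((1 - p) + (1 - p) ^ (m - 1) * p) ^ n := by
  rw [Pr_eq_Ex]
  have e : Ex p (fun M : Mat m n => ind (Iso M i)) = ∏ x : Fin n, Ev p (fun (r : Fin m → Bool) =>
      ind ((∀ k ∈ ({i} : Finset (Fin m)), r k = false) ∧ (∀ k ∈ (∅ : Finset (Fin m)), r k = true)) +
      ind ((∀ k ∈ univ.erase i, r k = false) ∧ (∀ k ∈ ({i} : Finset (Fin m)), r k = true))) := by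
    rw [← Ex_cols]
    congr 1
    funext M
    have h2 : ∀ x, (ind ((∀ k ∈ ({i} : Finset (Fin m)), M k x = false) ∧
        (∀ k ∈ (∅ : Finset (Fin m)), M k x = true)) +
        ind ((∀ k ∈ univ.erase i, M k x = false) ∧ (∀ k ∈ ({i} : Finset (Fin m)), M k x = true))) =
        ind (M i x = true → ∀ k, k ≠ i → M k x = false) := by
      intro x
      by_cases hi : M i x = true
      · rw [ind_neg (by simp [hi]), zero_add]
        congr 1
        apply propext
        constructor
        · rintro ⟨h, _⟩ _ k hk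
          exact h k (Finset.mem_erase.mpr ⟨hk, Finset.mem_univ _⟩)
        · intro h
          exact ⟨fun k hk => h hi k (Finset.mem_erase.mp hk).1, by simp [hi]⟩
      · rw [ind_pos (by simp [hi]), ind_neg (by simp [hi]), ind_pos (fun h => absurd h hi)]
        norm_num
    rw [Finset.prod_congr rfl (fun x _ => h2 x), ind_prod]
    congr 1
    apply propext
    unfold Iso
    simp
  rw [e]
  have e2 : Ev p (fun (r : Fin m → Bool) =>
      ind ((∀ k ∈ ({i} : Finset (Fin m)), r k = false) ∧ (∀ k ∈ (∅ : Finset (Fin m)), r k = true)) +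
      ind ((∀ k ∈ univ.erase i, r k = false) ∧ (∀ k ∈ ({i} : Finset (Fin m)), r k = true))) =
      (1 - p) + (1 - p) ^ (m - 1) * p := by
    rw [Ev_add, Ev_cyl p _ _ (by simp), Ev_cyl p _ _ (by simp)]
    simp
  rw [e2]
  simp

lemma Pr_iso2 {p : ℝ} {m n : ℕ} {i j : Fin m} (hij : i ≠ j) :
    Pr p (fun M : Mat m n => Iso M i ∧ Iso M j) =
      ((1 - p) ^ 2 + 2 * ((1 - p) ^ (m - 1) * p)) ^ n := by
  rw [Pr_eq_Ex]
  have e : Ex p (fun M : Mat m n => ind (Iso M i ∧ Iso M j)) =
      ∏ x : Fin n, Ev p (fun (r : Fin m → Bool) =>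
      ind ((∀ k ∈ ({i, j} : Finset (Fin m)), r k = false) ∧ (∀ k ∈ (∅ : Finset (Fin m)), r k = true)) +
      (ind ((∀ k ∈ univ.erase i, r k = false) ∧ (∀ k ∈ ({i} : Finset (Fin m)), r k = true)) +
      ind ((∀ k ∈ univ.erase j, r k = false) ∧ (∀ k ∈ ({j} : Finset (Fin m)), r k = true)))) := by
    rw [← Ex_cols]
    congr 1
    funext M
    have h2 : ∀ x, (ind ((∀ k ∈ ({i, j} : Finset (Fin m)), M k x = false) ∧
        (∀ k ∈ (∅ : Finset (Fin m)), M k x = true)) +
        (ind ((∀ k ∈ univ.erase i, M k x = false) ∧ (∀ k ∈ ({i} : Finset (Fin m)), M k x = true)) +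
        ind ((∀ k ∈ univ.erase j, M k x = false) ∧ (∀ k ∈ ({j} : Finset (Fin m)), M k x = true)))) =
        ind ((M i x = true → ∀ k, k ≠ i → M k x = false) ∧
          (M j x = true → ∀ k, k ≠ j → M k x = false)) := by
      intro x
      by_cases hi : M i x = true
      · rw [ind_neg (by simp [hi]), zero_add]
        have h3 : ¬ ((∀ k ∈ univ.erase j, M k x = false) ∧
            (∀ k ∈ ({j} : Finset (Fin m)), M k x = true)) := by
          rintro ⟨h, _⟩
          have := h i (Finset.mem_erase.mpr ⟨hij, Finset.mem_univ _⟩)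
          rw [hi] at this
          exact Bool.noConfusion this
        rw [ind_neg h3, add_zero]
        congr 1
        apply propext
        constructor
        · rintro ⟨h, _⟩
          refine ⟨fun _ k hk => h k (Finset.mem_erase.mpr ⟨hk, Finset.mem_univ _⟩), fun hj => ?_⟩
          have := h j (Finset.mem_erase.mpr ⟨hij.symm, Finset.mem_univ _⟩)
          rw [hj] at this
          exact Bool.noConfusion this
        · rintro ⟨h, _⟩
          exact ⟨fun k hk => h hi k (Finset.mem_erase.mp hk).1, by simp [hi]⟩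
      · by_cases hj : M j x = true
        · rw [ind_neg (by simp [hj]), ind_neg (by simp [hi]), zero_add, zero_add]
          congr 1
          apply propext
          constructor
          · rintro ⟨h, _⟩
            exact ⟨fun h' => absurd h' hi,
              fun _ k hk => h k (Finset.mem_erase.mpr ⟨hk, Finset.mem_univ _⟩)⟩
          · rintro ⟨_, h⟩
            exact ⟨fun k hk => h hj k (Finset.mem_erase.mp hk).1, by simp [hj]⟩
        · rw [ind_pos (by simp [hi, hj]), ind_neg (by simp [hi]), ind_neg (by simp [hj]),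
            ind_pos ⟨fun h => absurd h hi, fun h => absurd h hj⟩]
          norm_num
    rw [Finset.prod_congr rfl (fun x _ => h2 x), ind_prod]
    congr 1
    apply propext
    unfold Iso
    constructor
    · rintro ⟨h1, h2⟩ x _
      exact ⟨h1 x, h2 x⟩
    · intro h
      exact ⟨fun x => (h x (Finset.mem_univ _)).1, fun x => (h x (Finset.mem_univ _)).2⟩
  rw [e]
  have e2 : Ev p (fun (r : Fin m → Bool) =>
      ind ((∀ k ∈ ({i, j} : Finset (Fin m)), r k = false) ∧ (∀ k ∈ (∅ : Finset (Fin m)), r k = true)) +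
      (ind ((∀ k ∈ univ.erase i, r k = false) ∧ (∀ k ∈ ({i} : Finset (Fin m)), r k = true)) +
      ind ((∀ k ∈ univ.erase j, r k = false) ∧ (∀ k ∈ ({j} : Finset (Fin m)), r k = true)))) =
      (1 - p) ^ 2 + 2 * ((1 - p) ^ (m - 1) * p) := by
    rw [Ev_add, Ev_add, Ev_cyl p _ _ (by simp), Ev_cyl p _ _ (by simp), Ev_cyl p _ _ (by simp),
      Finset.card_pair hij]
    simp
    ring
  rw [e2]
  simp

lemma Pr_empty {p : ℝ} {m n : ℕ} (i : Fin m) :
    Pr p (fun M : Mat m n => ∀ x, M i x = false) = (1 - p) ^ n := by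
  rw [Pr_eq_Ex]
  have e : Ex p (fun M : Mat m n => ind (∀ x, M i x = false)) = ∏ x : Fin n,
      Ev p (fun (r : Fin m → Bool) => ind ((∀ k ∈ ({i} : Finset (Fin m)), r k = false) ∧
        (∀ k ∈ (∅ : Finset (Fin m)), r k = true))) := by
    rw [← Ex_cols]
    congr 1
    funext M
    rw [ind_prod]
    congr 1
    simp
  rw [e, Finset.prod_congr rfl (fun x _ => Ev_cyl p _ _ (by simp))]
  simp

lemma Pr_isoNE {p : ℝ} {m n : ℕ} (i : Fin m) :
    Pr p (fun M : Mat m n => IsoNE M i) =
      ((1 - p) + (1 - p) ^ (m - 1) * p) ^ n - (1 - p) ^ n := by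
  rw [← Pr_iso i, ← Pr_empty i, Pr_eq_Ex, Pr_eq_Ex, Pr_eq_Ex]
  unfold Ex
  rw [← Finset.sum_sub_distrib]
  refine Finset.sum_congr rfl fun M _ => ?_
  rw [← mul_sub]
  congr 1
  show ind (IsoNE M i) = ind (Iso M i) - ind (∀ x, M i x = false)
  by_cases h1 : ∀ x, M i x = false
  · have h2 : Iso M i := fun x hx => by
      rw [h1 x] at hx; exact Bool.noConfusion hx
    have h3 : ¬ IsoNE M i := by
      rintro ⟨⟨x, hx⟩, _⟩
      rw [h1 x] at hx; exact Bool.noConfusion hx
    rw [ind_pos h1, ind_pos h2, ind_neg h3]; norm_num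
  · rw [ind_neg h1, sub_zero]
    congr 1
    apply propext
    constructor
    · exact fun h => h.2
    · intro h
      push Not at h1
      obtain ⟨x, hx⟩ := h1
      exact ⟨⟨x, by simpa using hx⟩, h⟩

/-- second moment bound -/
lemma Pr_isolated {p : ℝ} (h0 : 0 ≤ p) (h1 : p ≤ 1) {m n : ℕ} {e : ℝ}
    (he : e = ((1 - p) + (1 - p) ^ (m - 1) * p) ^ n - (1 - p) ^ n) :
    (m * e) ^ 2 * Pr p (fun M : Mat m n => ¬ Frankl M) ≤
      m * e + m ^ 2 * ((1 - p) ^ 2 + 2 * ((1 - p) ^ (m - 1) * p)) ^ n - (m * e) ^ 2 := by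
  have hβ : 0 ≤ ((1 - p) ^ 2 + 2 * ((1 - p) ^ (m - 1) * p)) ^ n := by
    have : 0 ≤ (1 - p) ^ (m - 1) := pow_nonneg (by linarith) _
    positivity
  set Z : Mat m n → ℝ := fun M => ∑ i : Fin m, ind (IsoNE M i) with hZ
  have hEZ : Ex p Z = m * e := by
    rw [hZ, Ex_sum]
    rw [Finset.sum_congr rfl (fun i _ => by rw [← Pr_eq_Ex, Pr_isoNE, ← he])]
    simp
  have hEZ2 : Ex p (fun M => Z M ^ 2) ≤
      m * e + m ^ 2 * ((1 - p) ^ 2 + 2 * ((1 - p) ^ (m - 1) * p)) ^ n := by
    have e1 : (fun M => Z M ^ 2) = fun M => ∑ i : Fin m, ∑ j : Fin m,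
        ind (IsoNE M i) * ind (IsoNE M j) := by
      funext M
      rw [hZ, sq, Finset.sum_mul_sum]
    rw [e1, Ex_sum]
    calc ∑ i : Fin m, Ex p (fun M : Mat m n => ∑ j : Fin m, ind (IsoNE M i) * ind (IsoNE M j))
        ≤ ∑ i : Fin m, (e + m * ((1 - p) ^ 2 + 2 * ((1 - p) ^ (m - 1) * p)) ^ n) := by
          refine Finset.sum_le_sum fun i _ => ?_
          rw [Ex_sum]
          calc ∑ j : Fin m, Ex p (fun M : Mat m n => ind (IsoNE M i) * ind (IsoNE M j))
              ≤ ∑ j : Fin m, ((if j = i then e else 0) +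
                  ((1 - p) ^ 2 + 2 * ((1 - p) ^ (m - 1) * p)) ^ n) := by
                refine Finset.sum_le_sum fun j _ => ?_
                by_cases hj : j = i
                · subst hj
                  rw [if_pos rfl]
                  have : Ex p (fun M : Mat m n => ind (IsoNE M j) * ind (IsoNE M j)) ≤
                      Ex p (fun M : Mat m n => ind (IsoNE M j)) := by
                    refine Ex_mono h0 h1 fun M => ?_
                    by_cases h : IsoNE M j
                    · rw [ind_pos h]; norm_num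
                    · rw [ind_neg h]; norm_num
                  rw [← Pr_eq_Ex, Pr_isoNE, ← he] at this
                  linarith
                · rw [if_neg hj, zero_add, ← Pr_iso2 (n := n) (p := p) (i := i) (j := j)
                    (fun h => hj h.symm), Pr_eq_Ex]
                  refine Ex_mono h0 h1 fun M => ?_
                  by_cases h : IsoNE M i
                  · by_cases h' : IsoNE M j
                    · rw [ind_pos h, ind_pos h', ind_pos ⟨h.2, h'.2⟩]; norm_num
                    · rw [ind_neg h', mul_zero]; exact ind_nonneg _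
                  · rw [ind_neg h, zero_mul]; exact ind_nonneg _
            _ = _ := by
                rw [Finset.sum_add_distrib, Finset.sum_ite_eq' Finset.univ i]
                simp
      _ = _ := by
          rw [Finset.sum_const, Finset.card_univ, Fintype.card_fin, nsmul_eq_mul]
          ring
  have hone : Ex p (fun _ : Mat m n => (1:ℝ)) = 1 := by
    have := Ex_rows p (m := m) (n := n) (fun _ _ => 1)
    simpa [Ev_one] using this
  have hvar : Ex p (fun M => (Z M - m * e) ^ 2) = Ex p (fun M => Z M ^ 2) - (m * e) ^ 2 := by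
    have e1 : Ex p (fun M => (Z M - m * e) ^ 2) = Ex p (fun M => Z M ^ 2) -
        2 * (m * e) * Ex p Z + (m * e) ^ 2 * Ex p (fun _ : Mat m n => (1:ℝ)) := by
      unfold Ex
      rw [Finset.mul_sum, Finset.mul_sum, ← Finset.sum_sub_distrib, ← Finset.sum_add_distrib]
      refine Finset.sum_congr rfl fun M _ => by ring
    rw [e1, hEZ, hone]; ring
  have hlow : (m * e) ^ 2 * Pr p (fun M : Mat m n => ¬ Frankl M) ≤
      Ex p (fun M => (Z M - m * e) ^ 2) := by
    unfold Pr Ex
    rw [Finset.mul_sum]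
    refine Finset.sum_le_sum fun M _ => ?_
    have hw := wt_nonneg h0 h1 M
    split_ifs with h
    · have hZ0 : Z M = 0 := by
        rw [hZ]
        refine Finset.sum_eq_zero fun i _ => ind_neg fun hi => h ?_
        exact frankl_of_isolated M ⟨i, hi.1, hi.2⟩
      show (m * e) ^ 2 * wt p M ≤ wt p M * (Z M - m * e) ^ 2
      rw [hZ0]
      refine le_of_eq ?_
      ring
    · rw [mul_zero]; exact mul_nonneg hw (sq_nonneg _)
  linarith

end Pool.Agent.TH84.UC
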