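import Pool.Agent.TH84.UC.Prob2

set_option autoImplicit false

/-!
# Probability estimates, third part: columns of degree at least two
-/

namespace Pool.Agent.TH84.UC

open Finset
open scoped Classical
open Pool.Agent.H161R2.UC

/-- number of `true`s -/
noncomputable def dg {m : ℕ} (r : Fin m → Bool) : ℕ := (univ.filter (fun i => r i = true)).card

lemma prod_bw (p : ℝ) {m : ℕ} (r : Fin m → Bool) :
    ∏ x, bw p (r x) = p ^ dg r * (1 - p) ^ (m - dg r) := by
  unfold bw dg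
  rw [Finset.prod_ite, Finset.prod_const, Finset.prod_const]
  congr 2
  have h := Finset.card_filter_add_card_filter_not (s := (univ : Finset (Fin m)))
    (fun i => r i = true)
  rw [Finset.card_univ, Fintype.card_fin] at h
  omega

/-- supports -/
def suppEquiv (m : ℕ) : (Fin m → Bool) ≃ Finset (Fin m) where
  toFun r := univ.filter (fun i => r i = true)
  invFun D := fun i => decide (i ∈ D)
  left_inv r := by
    funext i
    by_cases h : r i = true <;> simp [h]
  right_inv D := by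
    ext i; simp

lemma Ev_card (p : ℝ) {m : ℕ} (S : Finset (Fin m)) (g : ℕ → ℝ) :
    Ev p (fun r => ind (∀ i, i ∉ S → r i = false) * g (dg r)) =
      ∑ d ∈ range (S.card + 1), (S.card.choose d : ℝ) * (p ^ d * (1 - p) ^ (m - d) * g d) := by
  have h1 : Ev p (fun r : Fin m → Bool => ind (∀ i, i ∉ S → r i = false) * g (dg r)) =
      ∑ D : Finset (Fin m), ind (D ⊆ S) * (p ^ D.card * (1 - p) ^ (m - D.card) * g D.card) := by
    unfold Ev
    refine Fintype.sum_equiv (suppEquiv m) _ _ fun r => ?_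
    rw [prod_bw]
    have e1 : ((suppEquiv m) r).card = dg r := rfl
    have e2 : ind ((suppEquiv m) r ⊆ S) = ind (∀ i, i ∉ S → r i = false) := by
      congr 1
      apply propext
      constructor
      · intro h i hi
        rw [← Bool.not_eq_true]
        intro hr
        exact hi (h (Finset.mem_filter.mpr ⟨Finset.mem_univ _, hr⟩))
      · intro h i hi
        by_contra hcon
        have := h i hcon
        have h3 : r i = true := (Finset.mem_filter.mp hi).2
        rw [h3] at this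
        exact Bool.noConfusion this
    rw [e1, e2]
    ring
  rw [h1]
  have h2 := Finset.sum_powerset_apply_card (x := S) (f := fun d => p ^ d * (1 - p) ^ (m - d) * g d)
  have h3 : ∑ D : Finset (Fin m), ind (D ⊆ S) * (p ^ D.card * (1 - p) ^ (m - D.card) * g D.card) =
      ∑ D ∈ S.powerset, (p ^ D.card * (1 - p) ^ (m - D.card) * g D.card) := by
    rw [← Finset.sum_subset (Finset.subset_univ S.powerset)]
    · refine Finset.sum_congr rfl fun D hD => ?_
      rw [ind_pos (Finset.mem_powerset.mp hD), one_mul]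
    · intro D _ hD
      rw [ind_neg (fun h => hD (Finset.mem_powerset.mpr h)), zero_mul]
  rw [h3, h2]
  refine Finset.sum_congr rfl fun d _ => by rw [nsmul_eq_mul]

/-- probability that a column has at least two `true`s -/
noncomputable def pi2 (p : ℝ) (m : ℕ) : ℝ := Ev p (fun r : Fin m → Bool => ind (2 ≤ dg r))

lemma choose_ratio {s m d : ℕ} (hd : 2 ≤ d) (hsm : s ≤ m) :
    s.choose d * (m * (m - 1)) ≤ (s * (s - 1)) * m.choose d := by
  rcases Nat.lt_or_ge s 2 with hs | hs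
  · rw [Nat.choose_eq_zero_of_lt (by omega)]; simp
  obtain ⟨d', rfl⟩ : ∃ d', d = d' + 2 := ⟨d - 2, by omega⟩
  obtain ⟨s', rfl⟩ : ∃ s', s = s' + 2 := ⟨s - 2, by omega⟩
  obtain ⟨m', rfl⟩ : ∃ m', m = m' + 2 := ⟨m - 2, by omega⟩
  have key : ∀ a : ℕ, (a + 2).choose (d' + 2) * ((d' + 2) * (d' + 1)) =
      (a + 2) * (a + 1) * a.choose d' := by
    intro a
    have h1 := Nat.add_one_mul_choose_eq (a + 1) (d' + 1)
    have h2 := Nat.add_one_mul_choose_eq a d'
    calc (a + 2).choose (d' + 2) * ((d' + 2) * (d' + 1))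
        = ((a + 1 + 1).choose (d' + 1 + 1) * (d' + 1 + 1)) * (d' + 1) := by ring
      _ = ((a + 1 + 1) * (a + 1).choose (d' + 1)) * (d' + 1) := by rw [h1]
      _ = (a + 2) * ((a + 1).choose (d' + 1) * (d' + 1)) := by ring
      _ = (a + 2) * ((a + 1) * a.choose d') := by rw [h2]
      _ = _ := by ring
  have h3 : s'.choose d' ≤ m'.choose d' := Nat.choose_le_choose _ (by omega)
  have e1 : s' + 2 - 1 = s' + 1 := by omega
  have e2 : m' + 2 - 1 = m' + 1 := by omega
  rw [e1, e2]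
  have hpos : 0 < (d' + 2) * (d' + 1) := by positivity
  refine Nat.le_of_mul_le_mul_right (c := (d' + 2) * (d' + 1)) ?_ hpos
  calc (s' + 2).choose (d' + 2) * ((m' + 2) * (m' + 1)) * ((d' + 2) * (d' + 1))
      = ((s' + 2).choose (d' + 2) * ((d' + 2) * (d' + 1))) * ((m' + 2) * (m' + 1)) := by ring
    _ = ((s' + 2) * (s' + 1) * s'.choose d') * ((m' + 2) * (m' + 1)) := by rw [key]
    _ ≤ ((s' + 2) * (s' + 1) * m'.choose d') * ((m' + 2) * (m' + 1)) :=
        Nat.mul_le_mul_right _ (Nat.mul_le_mul_left _ h3)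
    _ = ((s' + 2) * (s' + 1)) * ((m' + 2) * (m' + 1) * m'.choose d') := by ring
    _ = ((s' + 2) * (s' + 1)) * ((m' + 2).choose (d' + 2) * ((d' + 2) * (d' + 1))) := by rw [key]
    _ = _ := by ring

lemma choose_ratio' {s m d : ℕ} (hd : 2 ≤ d) (hsm : 5 * s ≤ 3 * m) :
    (s.choose d : ℝ) ≤ 9 / 25 * (m.choose d : ℝ) := by
  rcases Nat.lt_or_ge s 2 with hs | hs
  · rw [Nat.choose_eq_zero_of_lt (by omega)]
    push_cast; positivity
  have h := choose_ratio hd (show s ≤ m by omega)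
  obtain ⟨s', rfl⟩ : ∃ s', s = s' + 2 := ⟨s - 2, by omega⟩
  obtain ⟨m', rfl⟩ : ∃ m', m = m' + 2 := ⟨m - 2, by omega⟩
  have e1 : s' + 2 - 1 = s' + 1 := by omega
  have e2 : m' + 2 - 1 = m' + 1 := by omega
  rw [e1, e2] at h
  have h' : ((s' + 2).choose d : ℝ) * (((m':ℝ) + 2) * ((m':ℝ) + 1)) ≤
      (((s':ℝ) + 2) * ((s':ℝ) + 1)) * ((m' + 2).choose d : ℝ) := by exact_mod_cast h
  have h5 : (5:ℝ) * ((s':ℝ) + 2) ≤ 3 * ((m':ℝ) + 2) := by exact_mod_cast hsm
  have h6 : ((s':ℝ) + 2) * ((s':ℝ) + 1) ≤ 9 / 25 * (((m':ℝ) + 2) * ((m':ℝ) + 1)) := by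
    have hs0 : (0:ℝ) ≤ s' := by positivity
    have hm0 : (0:ℝ) ≤ m' := by positivity
    nlinarith
  have hc : (0:ℝ) ≤ ((m' + 2).choose d : ℝ) := by positivity
  have hpos : (0:ℝ) < ((m':ℝ) + 2) * ((m':ℝ) + 1) := by positivity
  have h7 : ((s' + 2).choose d : ℝ) * (((m':ℝ) + 2) * ((m':ℝ) + 1)) ≤
      (9 / 25 * ((m' + 2).choose d : ℝ)) * (((m':ℝ) + 2) * ((m':ℝ) + 1)) := by
    refine h'.trans ?_
    calc (((s':ℝ) + 2) * ((s':ℝ) + 1)) * ((m' + 2).choose d : ℝ)
        ≤ (9 / 25 * (((m':ℝ) + 2) * ((m':ℝ) + 1))) * ((m' + 2).choose d : ℝ) :=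
          mul_le_mul_of_nonneg_right h6 hc
      _ = _ := by ring
  exact le_of_mul_le_mul_right h7 hpos

lemma pi2_eq (p : ℝ) (m : ℕ) : pi2 p m = ∑ d ∈ range (m + 1),
    (m.choose d : ℝ) * (p ^ d * (1 - p) ^ (m - d) * (if 2 ≤ d then 1 else 0)) := by
  have h := Ev_card p (univ : Finset (Fin m)) (fun d => if 2 ≤ d then 1 else 0)
  rw [Finset.card_univ, Fintype.card_fin] at h
  rw [← h]
  unfold pi2
  congr 1
  funext r
  rw [ind_pos (P := ∀ i, i ∉ (univ : Finset (Fin m)) → r i = false)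
    (fun i hi => absurd (Finset.mem_univ i) hi), one_mul]
  by_cases h2 : 2 ≤ dg r
  · rw [ind_pos h2, if_pos h2]
  · rw [ind_neg h2, if_neg h2]

lemma miss_le {p : ℝ} (h0 : 0 ≤ p) (h1 : p ≤ 1) {m : ℕ} (I : Finset (Fin m))
    (hI : 2 * m ≤ 5 * I.card) :
    Ev p (fun r : Fin m → Bool => ind ((∀ i ∈ I, r i = false) ∧ 2 ≤ dg r)) ≤
      9 / 25 * pi2 p m := by
  have hIm : I.card ≤ m := by simpa using Finset.card_le_univ I
  have h := Ev_card p Iᶜ (fun d => if 2 ≤ d then 1 else 0)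
  have e1 : Ev p (fun r : Fin m → Bool => ind ((∀ i ∈ I, r i = false) ∧ 2 ≤ dg r)) =
      Ev p (fun r => ind (∀ i, i ∉ Iᶜ → r i = false) * (if 2 ≤ dg r then 1 else 0)) := by
    congr 1
    funext r
    have e2 : (∀ i, i ∉ Iᶜ → r i = false) ↔ ∀ i ∈ I, r i = false := by simp
    rw [e2]
    by_cases h2 : 2 ≤ dg r
    · rw [if_pos h2, mul_one]
      congr 1
      apply propext
      exact ⟨fun h => h.1, fun h => ⟨h, h2⟩⟩
    · rw [if_neg h2, mul_zero, ind_neg (fun h => h2 h.2)]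
  rw [e1, h, pi2_eq, Finset.card_compl, Fintype.card_fin, Finset.mul_sum]
  refine (Finset.sum_le_sum (g := fun d => 9 / 25 * ((m.choose d : ℝ) *
    (p ^ d * (1 - p) ^ (m - d) * (if 2 ≤ d then 1 else 0)))) fun d _ => ?_).trans ?_
  · by_cases h2 : 2 ≤ d
    · rw [if_pos h2, mul_one]
      have h3 := choose_ratio' (s := m - I.card) (m := m) h2 (by omega)
      have h4 : 0 ≤ p ^ d * (1 - p) ^ (m - d) :=
        mul_nonneg (pow_nonneg h0 _) (pow_nonneg (by linarith) _)
      calc ((m - I.card).choose d : ℝ) * (p ^ d * (1 - p) ^ (m - d))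
          ≤ (9 / 25 * (m.choose d : ℝ)) * (p ^ d * (1 - p) ^ (m - d)) :=
            mul_le_mul_of_nonneg_right h3 h4
        _ = _ := by ring
    · rw [if_neg h2]; simp
  · refine Finset.sum_le_sum_of_subset_of_nonneg (Finset.range_mono (by omega)) fun d _ _ => ?_
    have h4 : 0 ≤ p ^ d * (1 - p) ^ (m - d) :=
      mul_nonneg (pow_nonneg h0 _) (pow_nonneg (by linarith) _)
    split_ifs
    · positivity
    · simp

lemma pi2_ge {p : ℝ} (h0 : 0 ≤ p) (h1 : p ≤ 1) {m : ℕ} (hm : 2 ≤ m) :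
    (m.choose 2 : ℝ) * (p ^ 2 * (1 - p) ^ (m - 2)) ≤ pi2 p m := by
  rw [pi2_eq]
  refine le_trans (le_of_eq ?_) (Finset.single_le_sum (f := fun d => (m.choose d : ℝ) *
    (p ^ d * (1 - p) ^ (m - d) * (if 2 ≤ d then 1 else 0))) (fun d _ => ?_)
    (Finset.mem_range.mpr (show 2 < m + 1 by omega)))
  · simp
  · have h4 : 0 ≤ p ^ d * (1 - p) ^ (m - d) :=
      mul_nonneg (pow_nonneg h0 _) (pow_nonneg (by linarith) _)
    show 0 ≤ (m.choose d : ℝ) * (p ^ d * (1 - p) ^ (m - d) * (if 2 ≤ d then 1 else 0))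
    split_ifs
    · positivity
    · simp

/-- the columns with at least two `true`s -/
noncomputable def Y2 {m n : ℕ} (M : Mat m n) : Finset (Fin n) :=
  univ.filter (fun x => 2 ≤ dg (fun i => M i x))

lemma Pr_smallY {p : ℝ} (h0 : 0 ≤ p) (h1 : p ≤ 1) {m n : ℕ} (I : Finset (Fin m))
    (hI : 2 * m ≤ 5 * I.card) :
    Pr p (fun M : Mat m n => ¬ 3 * (Y2 M).card ≤ 5 * (unionOf M I ∩ Y2 M).card) ≤
      (1 - pi2 p m / 300) ^ n := by
  set g : (Fin m → Bool) → ℝ := fun r => 1 + ((30 / 31 : ℝ) ^ 2 - 1) * ind (2 ≤ dg r) +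
    ((31 / 30 : ℝ) ^ 3 - (30 / 31) ^ 2) * ind ((∀ i ∈ I, r i = false) ∧ 2 ≤ dg r) with hg
  have hgval : ∀ (M : Mat m n) (x : Fin n), g (fun i => M i x) =
      if x ∈ Y2 M then (if x ∈ unionOf M I then (30 / 31 : ℝ) ^ 2 else (31 / 30) ^ 3) else 1 := by
    intro M x
    have hx : x ∈ Y2 M ↔ 2 ≤ dg (fun i => M i x) := by simp [Y2]
    rw [hg]
    by_cases h2 : x ∈ Y2 M
    · rw [if_pos h2]
      have h3 := hx.mp h2
      by_cases h4 : x ∈ unionOf M I
      · rw [if_pos h4]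
        have h5 : ¬ ((∀ i ∈ I, M i x = false) ∧ 2 ≤ dg (fun i => M i x)) :=
          fun h => (not_mem_unionOf M I x).mpr h.1 h4
        show 1 + ((30 / 31 : ℝ) ^ 2 - 1) * ind (2 ≤ dg (fun i => M i x)) +
          ((31 / 30 : ℝ) ^ 3 - (30 / 31) ^ 2) * ind ((∀ i ∈ I, M i x = false) ∧
            2 ≤ dg (fun i => M i x)) = _
        rw [ind_pos h3, ind_neg h5]; ring
      · rw [if_neg h4]
        have h5 : ((∀ i ∈ I, M i x = false) ∧ 2 ≤ dg (fun i => M i x)) :=
          ⟨(not_mem_unionOf M I x).mp h4, h3⟩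
        show 1 + ((30 / 31 : ℝ) ^ 2 - 1) * ind (2 ≤ dg (fun i => M i x)) +
          ((31 / 30 : ℝ) ^ 3 - (30 / 31) ^ 2) * ind ((∀ i ∈ I, M i x = false) ∧
            2 ≤ dg (fun i => M i x)) = _
        rw [ind_pos h3, ind_pos h5]; ring
    · rw [if_neg h2]
      have h3 : ¬ 2 ≤ dg (fun i => M i x) := fun h => h2 (hx.mpr h)
      show 1 + ((30 / 31 : ℝ) ^ 2 - 1) * ind (2 ≤ dg (fun i => M i x)) +
          ((31 / 30 : ℝ) ^ 3 - (30 / 31) ^ 2) * ind ((∀ i ∈ I, M i x = false) ∧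
            2 ≤ dg (fun i => M i x)) = _
      rw [ind_neg h3, ind_neg (fun h => h3 h.2)]; ring
  have hprod : ∀ M : Mat m n, ∏ x, g (fun i => M i x) =
      (30 / 31 : ℝ) ^ (2 * (unionOf M I ∩ Y2 M).card) *
        (31 / 30) ^ (3 * ((Y2 M).card - (unionOf M I ∩ Y2 M).card)) := by
    intro M
    rw [Finset.prod_congr rfl (fun x _ => hgval M x), Finset.prod_ite, Finset.prod_const_one,
      mul_one, Finset.prod_ite, Finset.prod_const, Finset.prod_const, ← pow_mul, ← pow_mul]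
    have e1 : ((univ.filter (fun x => x ∈ Y2 M)).filter (fun x => x ∈ unionOf M I)) =
        unionOf M I ∩ Y2 M := by
      ext x; simp [and_comm]
    have e2 := Finset.card_filter_add_card_filter_not
      (s := univ.filter (fun x => x ∈ Y2 M)) (fun x => x ∈ unionOf M I)
    rw [e1] at e2
    have e3 : univ.filter (fun x => x ∈ Y2 M) = Y2 M := by ext x; simp
    rw [e1]
    rw [e3] at e2 ⊢
    congr 2
    omega
  have hE : Ex p (fun M : Mat m n => ∏ x, g (fun i => M i x)) = (Ev p g) ^ n := by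
    have := Ex_cols p (m := m) (n := n) (fun _ r => g r)
    rw [this]; simp
  have hEv : Ev p g = 1 + ((30 / 31 : ℝ) ^ 2 - 1) * pi2 p m + ((31 / 30 : ℝ) ^ 3 - (30 / 31) ^ 2) *
      Ev p (fun r : Fin m → Bool => ind ((∀ i ∈ I, r i = false) ∧ 2 ≤ dg r)) := by
    rw [hg, Ev_add, Ev_add, Ev_mul, Ev_mul, Ev_one]; rfl
  have hpi0 : 0 ≤ pi2 p m := Ev_nonneg h0 h1 fun r => ind_nonneg _
  have hpi1 : pi2 p m ≤ 1 := by
    unfold pi2
    rw [← Ev_one p (k := m)]
    refine Ev_mono h0 h1 fun r => ?_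
    by_cases h : 2 ≤ dg r
    · rw [ind_pos h]
    · rw [ind_neg h]; norm_num
  have hEvle : Ev p g ≤ 1 - pi2 p m / 300 := by
    rw [hEv]
    have := miss_le h0 h1 I hI
    nlinarith
  have hEv0 : 0 ≤ Ev p g := by
    refine Ev_nonneg h0 h1 fun r => ?_
    rw [hg]
    show 0 ≤ 1 + ((30 / 31 : ℝ) ^ 2 - 1) * ind (2 ≤ dg r) +
      ((31 / 30 : ℝ) ^ 3 - (30 / 31) ^ 2) * ind ((∀ i ∈ I, r i = false) ∧ 2 ≤ dg r)
    have h2 := ind_nonneg ((∀ i ∈ I, r i = false) ∧ 2 ≤ dg r)
    by_cases h : 2 ≤ dg r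
    · rw [ind_pos h]; norm_num; nlinarith
    · rw [ind_neg h]; norm_num; nlinarith
  calc Pr p (fun M : Mat m n => ¬ 3 * (Y2 M).card ≤ 5 * (unionOf M I ∩ Y2 M).card)
      ≤ Pr p (fun M : Mat m n => 1 ≤ ∏ x, g (fun i => M i x)) := by
        refine Pr_mono h0 h1 fun M hM => ?_
        rw [hprod]
        have hle : (unionOf M I ∩ Y2 M).card ≤ (Y2 M).card :=
          Finset.card_le_card Finset.inter_subset_right
        have h3 : 2 * (unionOf M I ∩ Y2 M).card ≤
            3 * ((Y2 M).card - (unionOf M I ∩ Y2 M).card) := by omega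
        have h4 : (31 / 30 : ℝ) ^ (2 * (unionOf M I ∩ Y2 M).card) ≤
            (31 / 30) ^ (3 * ((Y2 M).card - (unionOf M I ∩ Y2 M).card)) :=
          pow_le_pow_right₀ (by norm_num) h3
        calc (1:ℝ) = (30 / 31 : ℝ) ^ (2 * (unionOf M I ∩ Y2 M).card) *
              (31 / 30) ^ (2 * (unionOf M I ∩ Y2 M).card) := by
              rw [← mul_pow]; norm_num
          _ ≤ _ := mul_le_mul_of_nonneg_left h4 (by positivity)
    _ = 1 * Pr p (fun M : Mat m n => 1 ≤ ∏ x, g (fun i => M i x)) := by rw [one_mul]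
    _ ≤ Ex p (fun M : Mat m n => ∏ x, g (fun i => M i x)) := by
        refine markov h0 h1 _ (fun M => ?_) 1
        rw [hprod]; positivity
    _ = (Ev p g) ^ n := hE
    _ ≤ _ := pow_le_pow_left₀ hEv0 hEvle _

/-- if no column has two `true`s, the rows are disjoint -/
lemma frankl_of_Y2_empty {m n : ℕ} (M : Mat m n) (hNZ : NZ M) (h : ¬ (Y2 M).Nonempty) :
    Frankl M := by
  obtain ⟨i, x, hx⟩ := hNZ
  refine frankl_of_isolated M ⟨i, ⟨x, hx⟩, fun y hy k hk => ?_⟩
  rw [← Bool.not_eq_true]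
  intro hky
  apply h
  refine ⟨y, ?_⟩
  rw [Y2, Finset.mem_filter]
  refine ⟨Finset.mem_univ _, ?_⟩
  unfold dg
  have h2 : ({k, i} : Finset (Fin m)) ⊆ univ.filter (fun j => M j y = true) := by
    intro j hj
    rw [Finset.mem_insert, Finset.mem_singleton] at hj
    rw [Finset.mem_filter]
    rcases hj with rfl | rfl
    · exact ⟨Finset.mem_univ _, hky⟩
    · exact ⟨Finset.mem_univ _, hy⟩
  have h3 := Finset.card_le_card h2
  rwa [Finset.card_pair hk] at h3

/-- the main estimate for columns of bounded average degree -/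
lemma Pr_low {p : ℝ} (h0 : 0 < p) (h1 : p < 1) {m n j k T : ℕ} (hm : 0 < m)
    (hj : 2 * m ≤ 5 * j) (hjk : j ≤ k) (hk : k ≤ m)
    (hT : 10 * m ^ T * ∑ l ∈ range j, m.choose l ≤ m.choose k) :
    Pr p (fun M : Mat m n => NZ M ∧ ¬ Frankl M) ≤
      2 ^ m * (1 - pi2 p m / 300) ^ n + 2 * (m * (1 - (1 - p) ^ k * p) ^ n / (T + 1)) := by
  have hpi1 : pi2 p m ≤ 1 := by
    unfold pi2
    rw [← Ev_one p (k := m)]
    refine Ev_mono h0.le h1.le fun r => ?_
    by_cases h : 2 ≤ dg r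
    · rw [ind_pos h]
    · rw [ind_neg h]; norm_num
  calc Pr p (fun M : Mat m n => NZ M ∧ ¬ Frankl M)
      ≤ Pr p (fun M : Mat m n =>
          (∃ I ∈ powersetCard j (univ : Finset (Fin m)),
            ¬ 3 * (Y2 M).card ≤ 5 * (unionOf M I ∩ Y2 M).card) ∨
          ¬ (m.choose k ≤ 2 * ((powersetCard k (univ : Finset (Fin m))).filter
            (fun I => cov M I ≤ T)).card)) := by
        refine Pr_mono h0.le h1.le fun M hM => ?_
        by_contra hcon
        push Not at hcon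
        apply hM.2
        by_cases hY : (Y2 M).Nonempty
        · exact frankl_of_levelsY hm M (Y2 M) hY hjk hcon.1 hcon.2 hT
        · exact frankl_of_Y2_empty M hM.1 hY
    _ ≤ _ := Pr_or h0.le h1.le _ _
    _ ≤ 2 ^ m * (1 - pi2 p m / 300) ^ n + 2 * (m * (1 - (1 - p) ^ k * p) ^ n / (T + 1)) := by
        refine add_le_add ?_ (Pr_bad h0 h1 T hk)
        refine (Pr_exists h0.le h1.le _ _).trans ?_
        calc ∑ I ∈ powersetCard j (univ : Finset (Fin m)),
              Pr p (fun M : Mat m n => ¬ 3 * (Y2 M).card ≤ 5 * (unionOf M I ∩ Y2 M).card)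
            ≤ ∑ I ∈ powersetCard j (univ : Finset (Fin m)), (1 - pi2 p m / 300 : ℝ) ^ n := by
              refine Finset.sum_le_sum fun I hI => ?_
              refine Pr_smallY h0.le h1.le I ?_
              rw [(Finset.mem_powersetCard.mp hI).2]
              exact hj
          _ = (m.choose j : ℝ) * (1 - pi2 p m / 300 : ℝ) ^ n := by
              rw [Finset.sum_const, Finset.card_powersetCard, Finset.card_univ, Fintype.card_fin,
                nsmul_eq_mul]
          _ ≤ 2 ^ m * (1 - pi2 p m / 300) ^ n := by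
              refine mul_le_mul_of_nonneg_right ?_ (pow_nonneg (by linarith) _)
              exact_mod_cast Nat.choose_le_two_pow m j

end Pool.Agent.TH84.UC
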